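import Pool.Agent.Helper18.AW.Reg

/-!
# Transfer of blocks, abstract form

`T` is a subgroup of the finite group `X` and `κ : T → S × G` a surjective homomorphism with a section
on `G`; `S` and the kernel of `κ` have order prime to `p`, and `Sep κ` holds.
-/

set_option autoImplicit false
set_option linter.unusedSectionVars false

open scoped Classical
open MonoidAlgebra

noncomputable section

namespace Pool.Agent.Helper18.AW

open Pool.Agent.Helper18.BR

section unit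

variable {Λ : Type} [CommRing Λ] {T S G : Type} [Group T] [Finite T] [Group S] [Finite S]
  [Group G] [Finite G] {κ : T →* S × G}

theorem unit_of_dvd {n : ℕ} (hd : Nat.card κ.ker ∣ Nat.card S ^ n) {w : Λ}
    (hw : w * (Nat.card S : Λ) = 1) : ∃ u : Λ, u * (Nat.card κ.ker : Λ) = 1 := by
  obtain ⟨k, hk⟩ := hd
  refine ⟨w ^ n * k, ?_⟩
  have h1 : ((Nat.card S : Λ)) ^ n = (Nat.card κ.ker : Λ) * (k : Λ) := by
    rw [← Nat.cast_pow, hk, Nat.cast_mul]
  calc w ^ n * (k : Λ) * (Nat.card κ.ker : Λ)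
      = w ^ n * ((Nat.card κ.ker : Λ) * (k : Λ)) := by ring
    _ = (w * (Nat.card S : Λ)) ^ n := by rw [← h1, mul_pow]
    _ = 1 := by rw [hw, one_pow]

theorem not_dvd_ker {p : ℕ} [hp : Fact p.Prime] {n : ℕ} (hd : Nat.card κ.ker ∣ Nat.card S ^ n)
    (hS : ¬ p ∣ Nat.card S) : ¬ p ∣ Nat.card κ.ker := fun h =>
  hS (hp.out.dvd_of_dvd_pow (h.trans hd))

end unit

section awc

variable (p : ℕ) [Fact p.Prime] (k : Type) [Field k] [IsAlgClosed k] [CharP k p]
  (S : Type) [Group S] [Finite S] [Nontrivial S] (hS : ¬ p ∣ Nat.card S)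
  {X G : Type} [Group X] [Finite X] [Group G] [Finite G] {T : Subgroup X} {κ : T →* S × G}
  (hκ : Function.Surjective κ) (hsep : Sep κ) {n : ℕ} (hd : Nat.card κ.ker ∣ Nat.card S ^ n)
  (σ : G →* T) (hσ : ∀ g, κ (σ g) = (1, g))

include hS hκ hsep hd hσ in
theorem companions_abs : Companions p k G X := by
  intro z hz
  have h0 : (Nat.card S : k) ≠ 0 := fun h => hS ((CharP.cast_eq_zero_iff k p _).1 h)
  obtain ⟨m, i1, i2, ⟨M⟩⟩ := (good_of_nontrivial h0).exists_matBlock (isUnit_iff_ne_zero.2 h0)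
  obtain ⟨w, hw⟩ := (isUnit_iff_ne_zero.2 h0).exists_left_inv
  obtain ⟨u, hu⟩ := unit_of_dvd hd hw
  have hb1 : IsBlock (lft u κ M.ε z) := lft_isBlock M hκ hu hz
  have ho1 : Orth (lft u κ M.ε z) := lft_orth M hsep z
  refine ⟨tr (lft u κ M.ε z), tr_isBlock hb1 ho1, ?_, ?_⟩
  · rw [numWt_tr p hb1.2.2.1 hb1.2.1 ho1]
    exact numWt_lft hκ hS (not_dvd_ker hd hS) M hu σ hσ (cj_of_central hz.2.2.1)
  · intro A _ _ B _ _ hA hB
    have h1 : IsAlg k (tr (lft u κ M.ε z)) (Matrix (X ⧸ T) (X ⧸ T) (Matrix m m B)) :=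
      tr_isAlg hb1.2.2.1 hb1.2.1 ho1 (lft_isAlg M hκ hu hB)
    obtain ⟨φ⟩ := isAlg_unique hA h1
    exact IsMoritaEquivalent.trans k (IsMoritaEquivalent.of_algEquiv k φ) morita_mat.symm

end awc

theorem Companions.awc {p : ℕ} {k : Type} [CommRing k] {G : Type} [Group G] [Finite G] {X : Type}
    [Group X] [Finite X] (hc : Companions p k G X) (h : AWC p k X) : AWC p k G := by
  intro z hz B _ _ hB
  obtain ⟨e, he, h1, h2⟩ := hc z hz
  obtain ⟨A, i1, i2, hA⟩ := exists_isAlg (Λ := k) he.2.2.1 he.2.1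
  rw [← h1, ← h e he A hA]
  exact (numSim_of_morita (h2 A B hA hB)).symm

section instances

variable (p : ℕ) [Fact p.Prime] (k : Type) [Field k] [IsAlgClosed k] [CharP k p]
  {G H Ω : Type} [Group G] [Finite G] [Group H] [Finite H] [MulAction H Ω] [Finite Ω] {i : G →* H}
  (hi : Function.Injective i)

include hi in
theorem companions_point (S : Type) [Group S] [Finite S] [Nontrivial S] (hS : ¬ p ∣ Nat.card S)
    {w : Ω} (hw : ∀ h : H, h • w = w ↔ h ∈ i.range) : Companions p k G (Wr S H Ω) :=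
  companions_abs p k S hS (pk_surj hi hw) (sep_pk hi hw) (pk_ker_dvd hi hw) (rs S Ω i)
    (pk_rs hi hw)

include hi in
theorem companions_subset (S : Type) [CommGroup S] [Finite S] [Nontrivial S]
    (hS : ¬ p ∣ Nat.card S) {Δ : Set Ω} (hΔ : ∀ h : H, (∀ w, h • w ∈ Δ ↔ w ∈ Δ) ↔ h ∈ i.range)
    (hne : Δ.Nonempty) : Companions p k G (Wr S H Ω) :=
  companions_abs p k S hS (rk_surj hi hΔ hne) (sep_rk hi hΔ) (rk_ker_dvd hi hΔ) (rs S Ω i)
    (rk_rs hi hΔ)

include hi in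
theorem companions_reg (S : Type) [CommGroup S] [Finite S] [Nontrivial S]
    (hS : ¬ p ∣ Nat.card S) : Companions p k G (Wr S H H) :=
  companions_subset p k hi S hS regular_stab range_nonempty

end instances

section broue

variable {Λ : Type} [CommRing Λ] [IsLocalRing Λ]
  {X S G : Type} [Group X] [Finite X] [Group S] [Finite S] [Group G] [Finite G]
  {T : Subgroup X} {κ : T →* S × G} {p : ℕ} [hpp : Fact p.Prime]

/-- `κ` on the normalizer of `E ≤ T` -/
def kY (κ : T →* S × G) (E : Subgroup X) (D : Subgroup G)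
    (h : ∀ t : T, (t : X) ∈ Nm E → (κ t).2 ∈ Nm D) : T.subgroupOf (Nm E) →* S × Nm D where
  toFun t := ((κ ⟨t.1.1, t.2⟩).1, ⟨(κ ⟨t.1.1, t.2⟩).2, h ⟨t.1.1, t.2⟩ t.1.2⟩)
  map_one' := by
    have h0 := map_one κ
    have h1 := congrArg Prod.fst h0
    have h2 := congrArg Prod.snd h0
    refine Prod.ext ?_ (Subtype.ext ?_)
    · exact h1
    · exact h2
  map_mul' t t' := by
    have h0 := map_mul κ ⟨t.1.1, t.2⟩ ⟨t'.1.1, t'.2⟩
    have h1 := congrArg Prod.fst h0
    have h2 := congrArg Prod.snd h0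
    refine Prod.ext ?_ (Subtype.ext ?_)
    · exact h1
    · exact h2

theorem kY_eq {E : Subgroup X} {D : Subgroup G}
    {h : ∀ t : T, (t : X) ∈ Nm E → (κ t).2 ∈ Nm D} {t : T.subgroupOf (Nm E)} {s : S} {g : Nm D}
    (h0 : κ ⟨t.1.1, t.2⟩ = (s, g.1)) : kY κ E D h t = (s, g) := by
  have h1 := congrArg Prod.fst h0
  have h2 := congrArg Prod.snd h0
  refine Prod.ext ?_ (Subtype.ext ?_)
  · exact h1
  · exact h2

theorem kY_one {E : Subgroup X} {D : Subgroup G}
    {h : ∀ t : T, (t : X) ∈ Nm E → (κ t).2 ∈ Nm D} {t : T.subgroupOf (Nm E)} :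
    kY κ E D h t = 1 ↔ κ ⟨t.1.1, t.2⟩ = 1 := by
  constructor
  · intro h2
    have h3 := congrArg Prod.fst h2
    have h4 := congrArg (fun x : S × Nm D => (x.2 : G)) h2
    refine Prod.ext ?_ ?_
    · exact h3
    · exact h4
  · intro h2
    exact kY_eq h2

variable (hκ : Function.Surjective κ) (hsep : Sep κ) (hS : ¬ p ∣ Nat.card S)
  (hK : ¬ p ∣ Nat.card κ.ker) {E : Subgroup X} (hET : E ≤ T) (hE : IsPGroup p E)

/-- normalizers in `T` -/
theorem mem_nm_sub {E : Subgroup X} (hET : E ≤ T) {t : T} :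
    (t : X) ∈ Nm E ↔ t ∈ Nm (E.subgroupOf T) := by
  constructor
  · intro h
    refine Subgroup.mem_normalizer_fintype fun n hn => ?_
    exact (Subgroup.mem_normalizer_iff.1 h n).1 hn
  · intro h
    refine Subgroup.mem_normalizer_fintype fun n hn => ?_
    exact (Subgroup.mem_normalizer_iff.1 h ⟨n, hET hn⟩).1 hn

/-- the `p`-subgroup of `T` -/
def pT (hE : IsPGroup p E) : PSub p T := ⟨E.subgroupOf T, hE.comap_of_injective _ T.subtype_injective⟩

theorem kY_surj {D : Subgroup G} (hD : (img κ (pT (T := T) hE)).1 = D)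
    (h : ∀ t : T, (t : X) ∈ Nm E → (κ t).2 ∈ Nm D) (hκ : Function.Surjective κ)
    (hS : ¬ p ∣ Nat.card S) (hK : ¬ p ∣ Nat.card κ.ker) (hET : E ≤ T) :
    Function.Surjective (kY κ E D h) := by
  subst hD
  rintro ⟨s, g⟩
  obtain ⟨t, ht, h1⟩ := exists_nm hκ hS hK (pT (T := T) hE) (s := s) g.2
  exact ⟨⟨⟨t.1, (mem_nm_sub hET).2 ht⟩, t.2⟩, kY_eq h1⟩

/-- the conjugation action of `E` on the kernel -/
@[reducible] def actK (κ : T →* S × G) {E : Subgroup X} (hET : E ≤ T) : MulAction E κ.ker where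
  smul r c := ⟨⟨r.1, hET r.2⟩ * c.1 * (⟨r.1, hET r.2⟩ : T)⁻¹, by
    rw [MonoidHom.mem_ker, map_mul, map_mul, map_inv, MonoidHom.mem_ker.1 c.2, mul_one,
      mul_inv_cancel]⟩
  one_smul c := by
    apply Subtype.ext
    apply Subtype.ext
    change ((1 : E) : X) * c.1.1 * ((1 : E) : X)⁻¹ = c.1.1
    simp
  mul_smul r s c := by
    apply Subtype.ext
    apply Subtype.ext
    change ((r * s : E) : X) * c.1.1 * ((r * s : E) : X)⁻¹ =
      r.1 * (s.1 * c.1.1 * s.1⁻¹) * r.1⁻¹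
    push_cast
    group

theorem kY_card {D : Subgroup G} (h : ∀ t : T, (t : X) ∈ Nm E → (κ t).2 ∈ Nm D)
    (hK : ¬ p ∣ Nat.card κ.ker) (hET : E ≤ T) (hE : IsPGroup p E) :
    Nat.card κ.ker ≡ Nat.card (kY κ E D h).ker [MOD p] := by
  let _ := actK κ hET
  have h1 := hE.card_modEq_card_fixedPoints κ.ker
  refine h1.trans ?_
  have hfix : ∀ c : κ.ker, c ∈ MulAction.fixedPoints E κ.ker ↔
      ∀ r ∈ E, r * c.1.1 = c.1.1 * r := by
    intro c
    constructor
    · intro h r hr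
      have h2 : r * c.1.1 * r⁻¹ = c.1.1 := congrArg (fun c : κ.ker => c.1.1) (h ⟨r, hr⟩)
      exact mul_inv_eq_iff_eq_mul.1 h2
    · intro h r
      exact Subtype.ext (Subtype.ext (mul_inv_eq_iff_eq_mul.2 (h r.1 r.2)))
  have hnm : ∀ c : κ.ker, c.1.1 ∈ Nm E ↔ c ∈ MulAction.fixedPoints E κ.ker := by
    intro c
    rw [hfix]
    constructor
    · intro hc r hr
      have h2 := (Subgroup.mem_normalizer_iff.1 hc r).1 hr
      have h3 : r⁻¹ * (c.1.1 * r * c.1.1⁻¹) ∈ E := E.mul_mem (E.inv_mem hr) h2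
      have h4 : (⟨r⁻¹ * (c.1.1 * r * c.1.1⁻¹), hET h3⟩ : T) = 1 := by
        refine eq_one_of_ker (κ := κ) hK (pT (T := T) hE).2 (r := ⟨_, hET h3⟩) h3 ?_
        have h5 : (⟨r⁻¹ * (c.1.1 * r * c.1.1⁻¹), hET h3⟩ : T) =
            (⟨r, hET hr⟩ : T)⁻¹ * (c.1 * ⟨r, hET hr⟩ * c.1⁻¹) := rfl
        rw [h5, map_mul, map_mul, map_mul, map_inv, map_inv, MonoidHom.mem_ker.1 c.2, one_mul,
          inv_one, mul_one, inv_mul_cancel]
      have h6 : r⁻¹ * (c.1.1 * r * c.1.1⁻¹) = 1 := congrArg Subtype.val h4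
      rw [inv_mul_eq_one, eq_mul_inv_iff_mul_eq] at h6
      exact h6
    · intro hc
      exact Subgroup.centralizer_le_normalizer _ (Subgroup.mem_centralizer_iff.2 fun r hr =>
        hc r hr)
  refine (congrArg (fun n => n ≡ Nat.card (kY κ E D h).ker [MOD p]) (Nat.card_congr
    { toFun := fun c => ⟨⟨⟨c.1.1.1, (hnm c.1).2 c.2⟩, c.1.1.2⟩, by
        rw [MonoidHom.mem_ker, kY_one]
        exact MonoidHom.mem_ker.1 c.1.2⟩
      invFun := fun c => ⟨⟨⟨c.1.1.1, c.1.2⟩, by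
        have h2 := MonoidHom.mem_ker.1 c.2
        rw [kY_one] at h2
        exact h2⟩, (hnm _).1 c.1.1.2⟩
      left_inv := fun c => rfl
      right_inv := fun c => rfl })).mpr rfl

theorem sep_kY {D : Subgroup G} (h : ∀ t : T, (t : X) ∈ Nm E → (κ t).2 ∈ Nm D)
    (hsep : Sep κ) (hS : ¬ p ∣ Nat.card S) (hK : ¬ p ∣ Nat.card κ.ker) (hET : E ≤ T)
    (hE : IsPGroup p E) : Sep (kY κ E D h) := by
  intro y hy
  have hy' : (y : X) ∉ T := hy
  obtain ⟨j, t, hj, ht⟩ := hsep y hy'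
  -- the elements over `s` with conjugates in the kernel
  have key : ∀ s : S, ∃ l : T, (∀ r ∈ E, r * (l : X) = l * r) ∧ κ l = (s, 1) ∧
      ∃ l' : T, (l' : X) = (y : X)⁻¹ * l * y ∧ κ l' = 1 := by
    intro s
    let F : Type := {l : T // κ l = (s, 1) ∧ ∃ l' : T, (l' : X) = (y : X)⁻¹ * l * y ∧ κ l' = 1}
    let L : Subgroup κ.ker :=
      { carrier := {c | ∃ l' : T, (l' : X) = (y : X)⁻¹ * c.1 * y ∧ κ l' = 1}
        one_mem' := ⟨1, by
          rw [Subgroup.coe_one, Subgroup.coe_one, Subgroup.coe_one, mul_one, inv_mul_cancel],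
          map_one κ⟩
        mul_mem' := by
          rintro a b ⟨a', ha, ha'⟩ ⟨b', hb, hb'⟩
          refine ⟨a' * b', ?_, by rw [map_mul, ha', hb', one_mul]⟩
          rw [Subgroup.coe_mul, Subgroup.coe_mul, Subgroup.coe_mul, ha, hb]
          group
        inv_mem' := by
          rintro a ⟨a', ha, ha'⟩
          refine ⟨a'⁻¹, ?_, by rw [map_inv, ha', inv_one]⟩
          rw [Subgroup.coe_inv, Subgroup.coe_inv, Subgroup.coe_inv, ha]
          group }
    have hF : Nat.card F = Nat.card L := by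
      refine Nat.card_congr
        { toFun := fun f => ⟨⟨(j s)⁻¹ * f.1, by
            rw [MonoidHom.mem_ker, map_mul, map_inv, hj, f.2.1, inv_mul_cancel]⟩, by
            obtain ⟨l', h1, h2⟩ := f.2.2
            refine ⟨(t s)⁻¹ * l', ?_, by rw [map_mul, map_inv, (ht s).1, h2, inv_one, one_mul]⟩
            change ((t s : X))⁻¹ * (l' : X) = (y : X)⁻¹ * ((j s : X)⁻¹ * (f.1 : X)) * y
            rw [(ht s).2, h1]
            group⟩
          invFun := fun c => ⟨j s * c.1.1, by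
            rw [map_mul, hj, MonoidHom.mem_ker.1 c.1.2, mul_one], by
            obtain ⟨l', h1, h2⟩ := c.2
            refine ⟨t s * l', ?_, by rw [map_mul, (ht s).1, h2, one_mul]⟩
            change (t s : X) * (l' : X) = (y : X)⁻¹ * ((j s : X) * (c.1.1 : X)) * y
            rw [(ht s).2, h1]
            group⟩
          left_inv := fun f => Subtype.ext (by simp)
          right_inv := fun c => Subtype.ext (Subtype.ext (by simp)) }
    have hpF : ¬ p ∣ Nat.card F := by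
      rw [hF]
      intro h2
      exact hK (h2.trans (Subgroup.card_subgroup_dvd_card L))
    have hmem : ∀ (r : E) (f : F), κ (⟨r.1, hET r.2⟩ * f.1 * (⟨r.1, hET r.2⟩ : T)⁻¹) = (s, 1) ∧
        ∃ l' : T, (l' : X) = (y : X)⁻¹ * ((⟨r.1, hET r.2⟩ * f.1 * (⟨r.1, hET r.2⟩ : T)⁻¹ : T) : X)
          * y ∧ κ l' = 1 := by
      intro r f
      constructor
      · have h3 : (κ ⟨r.1, hET r.2⟩).1 = 1 := fst_one hS (pT (T := T) hE).2 (r := ⟨r.1, hET r.2⟩) r.2
        rw [map_mul, map_mul, map_inv, f.2.1]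
        refine Prod.ext ?_ ?_
        · rw [Prod.fst_mul, Prod.fst_mul, Prod.fst_inv, h3, one_mul, inv_one, mul_one]
        · rw [Prod.snd_mul, Prod.snd_mul, Prod.snd_inv, mul_one, mul_inv_cancel]
      · obtain ⟨l', h1, h2⟩ := f.2.2
        have h3 : (y : X)⁻¹ * r.1 * y ∈ E := by
          have := (Subgroup.mem_normalizer_iff.1 ((Nm E).inv_mem y.2) r.1).1 r.2
          rwa [inv_inv] at this
        refine ⟨⟨_, hET h3⟩ * l' * (⟨_, hET h3⟩ : T)⁻¹, ?_, by
          rw [map_mul, map_mul, map_inv, h2, mul_one, mul_inv_cancel]⟩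
        change ((y : X)⁻¹ * r.1 * y) * (l' : X) * ((y : X)⁻¹ * r.1 * y)⁻¹ =
          (y : X)⁻¹ * (r.1 * (f.1 : X) * r.1⁻¹) * y
        rw [h1]
        group
    let _ : MulAction E F :=
      { smul := fun r f => ⟨_, hmem r f⟩
        one_smul := fun f => by
          apply Subtype.ext
          apply Subtype.ext
          change ((1 : E) : X) * (f.1 : X) * ((1 : E) : X)⁻¹ = (f.1 : X)
          simp
        mul_smul := fun r r' f => by
          apply Subtype.ext
          apply Subtype.ext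
          change ((r * r' : E) : X) * (f.1 : X) * ((r * r' : E) : X)⁻¹ =
            r.1 * (r'.1 * (f.1 : X) * r'.1⁻¹) * r.1⁻¹
          push_cast
          group }
    have : Finite F := inferInstance
    obtain ⟨f, hf⟩ := hE.nonempty_fixed_point_of_prime_not_dvd_card F hpF
    refine ⟨f.1, fun r hr => ?_, f.2.1, f.2.2⟩
    have h2 : r * (f.1 : X) * r⁻¹ = f.1 := congrArg (fun f : F => (f.1 : X)) (hf ⟨r, hr⟩)
    exact mul_inv_eq_iff_eq_mul.1 h2
  choose l h1 h2 h3 using key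
  choose l' h4 h5 using h3
  have hl : ∀ s, (l s : X) ∈ Nm E := fun s => Subgroup.centralizer_le_normalizer _
    (Subgroup.mem_centralizer_iff.2 fun r hr => h1 s r hr)
  refine ⟨fun s => ⟨⟨l s, hl s⟩, (l s).2⟩,
    fun s => ⟨⟨l' s, by
      rw [h4]
      exact (Nm E).mul_mem ((Nm E).mul_mem ((Nm E).inv_mem y.2) (hl s)) y.2⟩, (l' s).2⟩,
    fun s => kY_eq (h2 s), fun s => ⟨?_, ?_⟩⟩
  · rw [kY_one]
    exact h5 s
  · apply Subtype.ext
    exact h4 s

end broue

end Pool.Agent.Helper18.AW
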