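import Pool.Agent.Helper18.AW.Fr

/-!
# The Brauer homomorphism
-/

set_option autoImplicit false
set_option linter.unusedSectionVars false

open scoped Classical
open MonoidAlgebra

noncomputable section

namespace Pool.Agent.Helper18.AW

open Pool.Agent.Helper18.BR

section push

variable {k : Type} [CommRing k] {A B C : Type} [Group A] [Finite A] [Group B] [Finite B]
  [Group C] [Finite C]

theorem push_push (f : A →* B) (g : B →* C) (a : MonoidAlgebra k A) :
    push g (push f a) = push (g.comp f) a := by
  induction a using MonoidAlgebra.induction_linear with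
  | zero => simp only [map_zero]
  | add y z hy hz => simp only [map_add, hy, hz]
  | single t r => rw [push_single, push_single, push_single]; rfl

theorem push_id (a : MonoidAlgebra k A) : push (MonoidHom.id A) a = a := by
  induction a using MonoidAlgebra.induction_linear with
  | zero => simp only [map_zero]
  | add y z hy hz => simp only [map_add, hy, hz]
  | single t r => rw [push_single]; rfl

theorem push_inj_coeff {f : A →* B} (hf : Function.Injective f) (a : MonoidAlgebra k A) (t : A) :
    (push f a).coeff (f t) = a.coeff t := by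
  rw [push_coeff, finsum_eq_single _ (⟨t, rfl⟩ : {s : A // f s = f t})]
  intro s hs
  exact absurd (Subtype.ext (hf s.2)) hs

theorem push_coeff_not {f : A →* B} (a : MonoidAlgebra k A) {b : B} (hb : ∀ t, f t ≠ b) :
    (push f a).coeff b = 0 := by
  have : IsEmpty {s : A // f s = b} := ⟨fun s => hb s.1 s.2⟩
  rw [push_coeff, finsum_of_isEmpty]

theorem cj_push (x : B) (f : A →* B) (a : MonoidAlgebra k A) :
    cj x (push f a) = push ((MulAut.conj x).toMonoidHom.comp f) a := by
  induction a using MonoidAlgebra.induction_linear with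
  | zero => unfold cj; simp only [map_zero, mul_zero, zero_mul]
  | add y z hy hz => rw [map_add, cj_add, hy, hz, map_add]
  | single t r =>
    rw [push_single, push_single]
    unfold cj
    rw [single_mul_single, single_mul_single, one_mul, mul_one]
    rfl

theorem cj_eq_push (x : A) (a : MonoidAlgebra k A) :
    cj x a = push (MulAut.conj x).toMonoidHom a := by
  have h := cj_push x (MonoidHom.id A) a
  rwa [push_id] at h

theorem push_cj (f : A →* B) (t : A) (a : MonoidAlgebra k A) :
    push f (cj t a) = cj (f t) (push f a) := by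
  unfold cj
  rw [map_mul, map_mul, push_single, push_single, map_inv]

theorem zz_push_congr {Y Y' : Type} [Group Y] [Finite Y] [Group Y'] [Finite Y'] {φ : A →* Y}
    {φ' : A →* Y'} (h : Function.Surjective φ) (h' : Function.Surjective φ')
    (hk : φ.ker = φ'.ker) (b : MonoidAlgebra k A) : zz (push φ b) = zz (push φ' b) := by
  let θ : Y ≃* Y' := (QuotientGroup.quotientKerEquivOfSurjective φ h).symm.trans
    ((QuotientGroup.quotientMulEquivOfEq hk).trans
      (QuotientGroup.quotientKerEquivOfSurjective φ' h'))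
  have h1 : (θ : Y →* Y').comp φ = φ' := by
    ext t
    have h2 : (QuotientGroup.quotientKerEquivOfSurjective φ h).symm (φ t) =
        QuotientGroup.mk t := by
      rw [MulEquiv.symm_apply_eq]
      rfl
    change QuotientGroup.quotientKerEquivOfSurjective φ' h' (QuotientGroup.quotientMulEquivOfEq hk
      ((QuotientGroup.quotientKerEquivOfSurjective φ h).symm (φ t))) = _
    rw [h2]
    rfl
  let Θ : MonoidAlgebra k Y ≃ₐ[k] MonoidAlgebra k Y' := MonoidAlgebra.domCongr k k θ
  have h3 : ∀ z : MonoidAlgebra k Y, Θ z = push (θ : Y →* Y') z := by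
    intro z
    induction z using MonoidAlgebra.induction_linear with
    | zero => simp only [map_zero]
    | add y z hy hz => simp only [map_add, hy, hz]
    | single t r =>
      rw [push_single]
      exact MonoidAlgebra.domCongr_single θ t r
  rw [zz_equiv Θ, h3, push_push, h1]

end push

section bc

variable {k : Type} [CommRing k] {X : Type} [Group X] [Finite X]

/-- the Brauer homomorphism, with values in the group algebra of the normalizer -/
def bc (Q : Subgroup X) (a : MonoidAlgebra k X) : MonoidAlgebra k (Nm Q) :=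
  mk fun n => if (n : X) ∈ Subgroup.centralizer (Q : Set X) then a.coeff (n : X) else 0

theorem bc_coeff (Q : Subgroup X) (a : MonoidAlgebra k X) (n : Nm Q) :
    (bc Q a).coeff n = if (n : X) ∈ Subgroup.centralizer (Q : Set X) then a.coeff (n : X) else 0 :=
  rfl

/-- the projection onto the quotient -/
abbrev pr (Q : Subgroup X) : Nm Q →* Nm Q ⧸ Q.subgroupOf (Nm Q) := QuotientGroup.mk' _

theorem brq_eq (Q : Subgroup X) (a : MonoidAlgebra k X) : brq Q a = push (pr Q) (bc Q a) := by
  have : Fintype (Subgroup.centralizer (Q : Set X)) := Fintype.ofFinite _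
  have : Fintype (Nm Q) := Fintype.ofFinite _
  have h1 : bc Q a = ∑ y : Subgroup.centralizer (Q : Set X),
      single (⟨y.1, Subgroup.centralizer_le_normalizer _ y.2⟩ : Nm Q) (a.coeff y.1) := by
    ext n
    rw [bc_coeff, coeff_sum, Finset.sum_apply']
    split_ifs with hn
    · rw [Finset.sum_eq_single (⟨n.1, hn⟩ : Subgroup.centralizer (Q : Set X))]
      · rw [coeff_single, Finsupp.single_eq_same]
      · intro b _ hb
        rw [coeff_single, Finsupp.single_apply, if_neg]
        intro h
        apply hb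
        apply Subtype.ext
        exact congrArg (fun z : Nm Q => (z : X)) h
      · intro h
        exact absurd (Finset.mem_univ _) h
    · symm
      refine Finset.sum_eq_zero fun b _ => ?_
      rw [coeff_single, Finsupp.single_apply, if_neg]
      rintro rfl
      exact hn b.2
  unfold brq
  rw [finsum_eq_sum_of_fintype, h1, map_sum]
  exact Finset.sum_congr rfl fun y _ => (push_single (pr Q) _ _).symm

theorem bc_add (Q : Subgroup X) (a b : MonoidAlgebra k X) : bc Q (a + b) = bc Q a + bc Q b := by
  ext n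
  rw [coeff_add, Finsupp.add_apply, bc_coeff, bc_coeff, bc_coeff]
  split_ifs
  · rfl
  · rw [add_zero]

theorem bc_zero (Q : Subgroup X) : bc Q (0 : MonoidAlgebra k X) = 0 := by
  ext n
  rw [bc_coeff]
  split_ifs <;> rfl

variable (p : ℕ) [Fact p.Prime] [CharP k p]

theorem bc_mul {Q : Subgroup X} (hQ : IsPGroup p Q) {a b : MonoidAlgebra k X}
    (ha : ∀ y ∈ Q, cj y a = a) (hb : ∀ y ∈ Q, cj y b = b) : bc Q (a * b) = bc Q a * bc Q b := by
  have : Fintype X := Fintype.ofFinite _
  have : Fintype (Nm Q) := Fintype.ofFinite _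
  ext n
  rw [bc_coeff, coeff_mul_sum]
  have key : ∀ m : Nm Q, (m : X) ∈ Subgroup.centralizer (Q : Set X) →
      (((m⁻¹ * n : Nm Q) : X) ∈ Subgroup.centralizer (Q : Set X) ↔
        (n : X) ∈ Subgroup.centralizer (Q : Set X)) := by
    intro m hm
    rw [Subgroup.coe_mul, Subgroup.coe_inv]
    exact Subgroup.mul_mem_cancel_left _ (Subgroup.inv_mem _ hm)
  by_cases hn : (n : X) ∈ Subgroup.centralizer (Q : Set X)
  · rw [if_pos hn, coeff_mul_sum]
    let _ : MulAction Q X :=
      { smul := fun q y => q.1 * y * q.1⁻¹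
        one_smul := fun y => by
          change ((1 : Q) : X) * y * ((1 : Q) : X)⁻¹ = y
          simp
        mul_smul := fun q q' y => by
          change ((q * q' : Q) : X) * y * ((q * q' : Q) : X)⁻¹ = q.1 * (q'.1 * y * q'.1⁻¹) * q.1⁻¹
          push_cast
          group }
    have hinv : ∀ (c : MonoidAlgebra k X), (∀ y ∈ Q, cj y c = c) → ∀ (q : Q) (y : X),
        c.coeff (q.1 * y * q.1⁻¹) = c.coeff y := by
      intro c hc q y
      have h1 := hc q.1⁻¹ (Q.inv_mem q.2)
      conv_rhs => rw [← h1, cj_coeff, inv_inv]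
    rw [sum_fixed p hQ (fun y : X => a.coeff y * b.coeff (y⁻¹ * n)) ?_]
    · have h2 : ∀ y : X, (∀ d : Q, d • y = y) ↔ y ∈ Subgroup.centralizer (Q : Set X) := by
        intro y
        rw [Subgroup.mem_centralizer_iff]
        constructor
        · intro h q hq
          exact mul_inv_eq_iff_eq_mul.1 (h ⟨q, hq⟩)
        · intro h q
          exact mul_inv_eq_iff_eq_mul.2 (h q.1 q.2)
      rw [Finset.sum_congr (Finset.filter_congr fun y _ => h2 y) fun _ _ => rfl]
      have h3 : ∀ m : Nm Q, (bc Q a).coeff m * (bc Q b).coeff (m⁻¹ * n) =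
          if (m : X) ∈ Subgroup.centralizer (Q : Set X) then
            a.coeff (m : X) * b.coeff ((m : X)⁻¹ * n) else 0 := by
        intro m
        rw [bc_coeff]
        split_ifs with hm
        · rw [bc_coeff, if_pos ((key m hm).2 hn)]
          rfl
        · rw [zero_mul]
      rw [Finset.sum_congr rfl fun m _ => h3 m, ← Finset.sum_filter]
      symm
      refine Finset.sum_bij (fun m _ => (m : X)) (fun m hm => ?_) (fun m _ m' _ h => Subtype.ext h)
        (fun y hy => ?_) (fun m _ => rfl)
      · rw [Finset.mem_filter]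
        exact ⟨Finset.mem_univ _, (Finset.mem_filter.1 hm).2⟩
      · have hy' := (Finset.mem_filter.1 hy).2
        refine ⟨⟨y, Subgroup.centralizer_le_normalizer _ hy'⟩, ?_, rfl⟩
        rw [Finset.mem_filter]
        exact ⟨Finset.mem_univ _, hy'⟩
    · intro q y
      change a.coeff (q.1 * y * q.1⁻¹) * b.coeff ((q.1 * y * q.1⁻¹)⁻¹ * n) = _
      rw [hinv a ha]
      have h4 : (q.1 * y * q.1⁻¹)⁻¹ * (n : X) = q.1 * (y⁻¹ * n) * q.1⁻¹ := by
        rw [Subgroup.mem_centralizer_iff] at hn
        have h5 := hn q.1 q.2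
        have h6 : (q.1)⁻¹ * (n : X) = n * (q.1)⁻¹ := by
          rw [eq_mul_inv_iff_mul_eq, mul_assoc, ← h5, inv_mul_cancel_left]
        calc (q.1 * y * q.1⁻¹)⁻¹ * (n : X) = q.1 * y⁻¹ * (q.1⁻¹ * n) := by group
          _ = _ := by rw [h6]; group
      rw [h4, hinv b hb]
  · rw [if_neg hn, coeff_mul_sum]
    symm
    refine Finset.sum_eq_zero fun m _ => ?_
    rw [bc_coeff]
    split_ifs with hm
    · rw [bc_coeff, if_neg (fun h => hn ((key m hm).1 h)), mul_zero]
    · rw [zero_mul]

end bc

section inj

variable {k : Type} [CommRing k] {A X : Type} [Group A] [Finite A] [Group X] [Finite X]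
  (j : A →* X) {Q : Subgroup X} (hQ : Q ≤ j.range)
include hQ

theorem nj_mem {t : A} (ht : t ∈ Nm (Q.comap j)) : j t ∈ Nm Q := by
  refine Subgroup.mem_normalizer_fintype fun n hn => ?_
  obtain ⟨r, rfl⟩ := hQ hn
  have h := (Subgroup.mem_normalizer_iff.1 ht r).1 hn
  rw [Subgroup.mem_comap, map_mul, map_mul, map_inv] at h
  exact h

/-- the homomorphism of the normalizers -/
def nj : Nm (Q.comap j) →* Nm Q where
  toFun t := ⟨j t.1, nj_mem j hQ t.2⟩
  map_one' := Subtype.ext (map_one j)
  map_mul' t t' := Subtype.ext (map_mul j t.1 t'.1)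

theorem nj_coe (t : Nm (Q.comap j)) : (nj j hQ t : X) = j t.1 := rfl

omit hQ in
theorem mem_nm_of {t : A} (ht : j t ∈ Nm Q) : t ∈ Nm (Q.comap j) := by
  refine Subgroup.mem_normalizer_fintype fun n hn => ?_
  change j (t * n * t⁻¹) ∈ Q
  rw [map_mul, map_mul, map_inv]
  exact (Subgroup.mem_normalizer_iff.1 ht _).1 hn

theorem ker_nj : ((pr Q).comp (nj j hQ)).ker = (Q.comap j).subgroupOf (Nm (Q.comap j)) := by
  ext t
  rw [MonoidHom.mem_ker, MonoidHom.comp_apply, QuotientGroup.mk'_apply, QuotientGroup.eq_one_iff,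
    Subgroup.mem_subgroupOf, Subgroup.mem_subgroupOf, Subgroup.mem_comap]
  rfl

variable {j} (hj : Function.Injective j)
include hj

theorem nj_inj : Function.Injective (nj j hQ) := fun _ _ h =>
  Subtype.ext (hj (congrArg Subtype.val h))

theorem mem_cent_comap {t : A} : t ∈ Subgroup.centralizer ((Q.comap j : Subgroup A) : Set A) ↔
    j t ∈ Subgroup.centralizer (Q : Set X) := by
  rw [Subgroup.mem_centralizer_iff, Subgroup.mem_centralizer_iff]
  constructor
  · intro h y hy
    obtain ⟨r, rfl⟩ := hQ hy
    rw [← map_mul, h r hy, map_mul]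
  · intro h r hr
    apply hj
    rw [map_mul, h _ hr, map_mul]

theorem bc_push (a : MonoidAlgebra k A) :
    bc Q (push j a) = push (nj j hQ) (bc (Q.comap j) a) := by
  ext n
  rw [bc_coeff]
  by_cases hn : ∃ t, j t = n
  · obtain ⟨t, ht⟩ := hn
    have h1 : t ∈ Nm (Q.comap j) := mem_nm_of j (by rw [ht]; exact n.2)
    have h2 : n = nj j hQ ⟨t, h1⟩ := Subtype.ext ht.symm
    rw [h2, push_inj_coeff (nj_inj hQ hj), bc_coeff, nj_coe, push_inj_coeff hj]
    simp only [mem_cent_comap hQ hj]
  · push Not at hn
    rw [push_coeff_not a hn, ite_self, push_coeff_not]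
    intro t ht
    exact hn t.1 (by rw [← ht]; rfl)

end inj

section conj

variable {k : Type} [CommRing k] {X : Type} [Group X] [Finite X]

theorem zz_brq_conj {p : ℕ} (x : X) (Q : PSub p X) {a : MonoidAlgebra k X}
    (ha : ∀ x, cj x a = a) : zz (brq (x • Q).1 a) = zz (brq Q.1 a) := by
  let j : X →* X := (MulAut.conj x).toMonoidHom
  have hj : Function.Bijective j := (MulAut.conj x).bijective
  have h1 : (x • Q).1 = Q.1.map j := rfl
  have h2 : (x • Q).1 ≤ j.range := by
    rw [MonoidHom.range_eq_top.2 hj.2]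
    exact le_top
  have h3 : (x • Q).1.comap j = Q.1 := by
    rw [h1]
    exact Subgroup.comap_map_eq_self_of_injective hj.1 _
  rw [← congrArg (fun R => zz (brq R a)) h3]
  change _ = zz (brq ((x • Q).1.comap j) a)
  rw [brq_eq, brq_eq]
  conv_lhs => rw [← ha x, cj_eq_push]
  rw [bc_push h2 hj.1, push_push]
  refine zz_push_congr ?_ (QuotientGroup.mk'_surjective _) ?_ _
  · rintro y
    obtain ⟨n, rfl⟩ := QuotientGroup.mk'_surjective _ y
    obtain ⟨t, ht⟩ := hj.2 n.1
    refine ⟨⟨t, mem_nm_of j (by rw [ht]; exact n.2)⟩, ?_⟩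
    rw [MonoidHom.comp_apply]
    exact congrArg _ (Subtype.ext ht)
  · rw [ker_nj, QuotientGroup.ker_mk']

instance finPSub (p : ℕ) : Finite (PSub p X) := inferInstance

theorem mem_stab {p : ℕ} {Q : PSub p X} {x : X} :
    x ∈ MulAction.stabilizer X Q ↔ x ∈ Nm Q.1 := by
  rw [MulAction.mem_stabilizer_iff]
  constructor
  · intro h
    refine Subgroup.mem_normalizer_fintype fun n hn => ?_
    have h1 : (x • Q).1 = Q.1 := congrArg Subtype.val h
    rw [← h1]
    exact ⟨n, hn, rfl⟩
  · intro h
    apply Subtype.ext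
    ext y
    constructor
    · rintro ⟨n, hn, rfl⟩
      exact (Subgroup.mem_normalizer_iff.1 h n).1 hn
    · intro hy
      refine ⟨x⁻¹ * y * x, ?_, ?_⟩
      · have h2 := (Subgroup.mem_normalizer_iff.1 ((Nm Q.1).inv_mem h) y).1 hy
        rwa [inv_inv] at h2
      · change x * (x⁻¹ * y * x) * x⁻¹ = y
        group

/-- the number of classes of weights as a weighted sum over all `p`-subgroups -/
theorem card_mul_numWt (p : ℕ) {a : MonoidAlgebra k X} (ha : ∀ x, cj x a = a)
    [Fintype (PSub p X)] : Nat.card X * numWt p a =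
      ∑ Q : PSub p X, Nat.card (Nm Q.1) * zz (brq Q.1 a) := by
  have : Fintype (MulAction.orbitRel.Quotient X (PSub p X)) := Fintype.ofFinite _
  have h1 := orbit_sum (Y := X) (P := PSub p X) (fun Q => zz (brq Q.1 a))
    (fun x Q => zz_brq_conj x Q ha)
  unfold numWt
  rw [finsum_eq_sum_of_fintype, h1]
  refine Finset.sum_congr rfl fun Q _ => ?_
  have h2 : MulAction.stabilizer X Q = Nm Q.1 := by
    ext x
    exact mem_stab
  rw [h2]

end conj

end Pool.Agent.Helper18.AW
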