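import Pool.Agent.Helper18.AW.Abs

/-!
# Broué's conjecture and regular wreath products
-/

set_option autoImplicit false
set_option linter.unusedSectionVars false

open scoped Classical
open MonoidAlgebra

noncomputable section

namespace Pool.Agent.Helper18.AW

open Pool.Agent.Helper18.BR

section broue

variable {Λ : Type} [CommRing Λ] [IsLocalRing Λ]
  {X S G : Type} [Group X] [Finite X] [Group S] [Finite S] [Group G] [Finite G]
  {T : Subgroup X} {κ : T →* S × G} {m : Type} [Fintype m] [Nonempty m] (M : MatBlock Λ S m)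

theorem rd_units_of {T' : Type} [Group T'] [Finite T'] {Q Q' : Type} [Group Q] [Group Q']
    (p : ℕ) [Fact p.Prime] (hp : ¬ IsUnit (p : Λ)) {κ₁ : T →* Q} {κ₂ : T' →* Q'} {u v : Λ}
    (hu : u * (Nat.card κ₁.ker : Λ) = 1) (hv : v * (Nat.card κ₂.ker : Λ) = 1)
    (hmod : Nat.card κ₁.ker ≡ Nat.card κ₂.ker [MOD p]) : rd u = rd v := by
  have := charP_res p hp
  have h1 := congrArg (rd (Λ := Λ)) hu
  have h2 := congrArg (rd (Λ := Λ)) hv
  rw [map_mul, map_natCast, map_one] at h1 h2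
  rw [(CharP.natCast_eq_natCast (IsLocalRing.ResidueField Λ) p).2 hmod] at h1
  have h3 : (Nat.card κ₂.ker : IsLocalRing.ResidueField Λ) ≠ 0 := by
    intro h
    rw [h, mul_zero] at h2
    exact zero_ne_one h2
  exact mul_right_cancel₀ h3 (h1.trans h2.symm)

theorem unit_of_mod {T' : Type} [Group T'] [Finite T'] {Q Q' : Type} [Group Q] [Group Q']
    (p : ℕ) [Fact p.Prime] (hp : ¬ IsUnit (p : Λ)) {κ₁ : T →* Q} {κ₂ : T' →* Q'} {u : Λ}
    (hu : u * (Nat.card κ₁.ker : Λ) = 1)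
    (hmod : Nat.card κ₁.ker ≡ Nat.card κ₂.ker [MOD p]) :
    ∃ v : Λ, v * (Nat.card κ₂.ker : Λ) = 1 := by
  have := charP_res p hp
  have h1 : IsUnit (Nat.card κ₁.ker : Λ) := IsUnit.of_mul_eq_one u (by rw [mul_comm, hu])
  have h2 : IsUnit (Nat.card κ₂.ker : Λ) := by
    rw [← rd_ne] at h1 ⊢
    rw [map_natCast] at h1 ⊢
    rwa [← (CharP.natCast_eq_natCast (IsLocalRing.ResidueField Λ) p).2 hmod]
  obtain ⟨v, hv⟩ := h2.exists_left_inv
  exact ⟨v, hv⟩

theorem not_dvd_of_unit (p : ℕ) (hp : ¬ IsUnit (p : Λ)) {n : ℕ} (hn : IsUnit (n : Λ)) :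
    ¬ p ∣ n := by
  rintro ⟨k, rfl⟩
  rw [Nat.cast_mul] at hn
  exact hp (isUnit_of_mul_isUnit_left hn)

include M in
theorem transfer_abs (p : ℕ) [Fact p.Prime] (hp : ¬ IsUnit (p : Λ)) {w : Λ}
    (hw : w * (Nat.card S : Λ) = 1) (hκ : Function.Surjective κ) (hsep : Sep κ) {n : ℕ}
    (hd : Nat.card κ.ker ∣ Nat.card S ^ n) (σ : G →* T) (hσ : ∀ g, κ (σ g) = (1, g))
    {e : MonoidAlgebra Λ G} {D : Subgroup G} (he : IsBlock e)
    (hD : IsDefect p e D) {c : MonoidAlgebra Λ (Nm D)} (hc : IsCor e D c) :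
    ∃ (D' : Subgroup X) (e' : MonoidAlgebra Λ X) (c' : MonoidAlgebra Λ (Nm D')),
      IsBlock e' ∧ IsDefect p e' D' ∧ IsCor e' D' c' ∧ Nonempty (D' ≃* D) ∧
      (∀ (A : Type) [Ring A] [Algebra Λ A], IsAlg Λ e A →
        IsAlg Λ e' (Matrix (X ⧸ T) (X ⧸ T) (Matrix m m A))) ∧
      ∀ (B : Type) [Ring B] [Algebra Λ B], IsAlg Λ c B →
        IsAlg Λ c' (Matrix (Nm D' ⧸ T.subgroupOf (Nm D')) (Nm D' ⧸ T.subgroupOf (Nm D'))
          (Matrix m m B)) := by
  have hSp : ¬ p ∣ Nat.card S := not_dvd_of_unit p hp (IsUnit.of_mul_eq_one w (by rw [mul_comm, hw]))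
  have hK : ¬ p ∣ Nat.card κ.ker := not_dvd_ker hd hSp
  obtain ⟨u, hu⟩ := unit_of_dvd hd hw
  have huu : IsUnit u := IsUnit.of_mul_eq_one _ hu
  have hσi : Function.Injective σ := by
    intro a b hab
    have := congrArg κ hab
    rw [hσ, hσ] at this
    exact congrArg Prod.snd this
  have hτi : Function.Injective (T.subtype.comp σ) := T.subtype_injective.comp hσi
  let E : Subgroup X := D.map (T.subtype.comp σ)
  have hET : E ≤ T := by
    rintro x ⟨d, _, rfl⟩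
    exact (σ d).2
  have hEs : E.subgroupOf T = D.map σ := by
    change (D.map (T.subtype.comp σ)).comap T.subtype = _
    rw [← Subgroup.map_map]
    exact Subgroup.comap_map_eq_self_of_injective T.subtype_injective _
  have hEp : IsPGroup p E := hD.1.map _
  have himg : (img κ (pT (T := T) hEp)).1 = D := by
    change (E.subgroupOf T).map ((MonoidHom.snd S G).comp κ) = D
    rw [hEs, Subgroup.map_map]
    have h1 : ((MonoidHom.snd S G).comp κ).comp σ = MonoidHom.id G := by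
      ext g
      change (κ (σ g)).2 = g
      rw [hσ]
    rw [h1, Subgroup.map_id]
  have hnm : ∀ t : T, (t : X) ∈ Nm E → (κ t).2 ∈ Nm D := by
    intro t ht
    have h1 := snd_nm (κ := κ) (pT (T := T) hEp) ((mem_nm_sub hET).1 ht)
    rwa [himg] at h1
  have hM : Match κ (E.subgroupOf T) D :=
    { fst := fun x hx => fst_one (κ := κ) hSp (pT (T := T) hEp).2 hx
      snd := fun x hx => by
        rw [hEs] at hx
        obtain ⟨d, hd, rfl⟩ := hx
        rw [hσ]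
        exact hd
      ex := fun d hd => ⟨σ d, by rw [hEs]; exact ⟨d, hd, rfl⟩, hσ d⟩
      inj := fun x hx h => eq_one_of_ker hK (pT (T := T) hEp).2 hx h }
  have hmod := kY_card (D := D) hnm hK hET hEp
  obtain ⟨v, hv⟩ := unit_of_mod p hp hu hmod
  have hYs : Function.Surjective (kY κ E D hnm) := kY_surj hEp himg hnm hκ hSp hK hET
  have hb1 : IsBlock (lft u κ M.ε e) := lft_isBlock M hκ hu he
  have hb2 : IsBlock (lft v (kY κ E D hnm) M.ε c) := lft_isBlock M hYs hv hc.1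
  have ho1 : Orth (lft u κ M.ε e) := lft_orth M hsep e
  have ho2 : Orth (lft v (kY κ E D hnm) M.ε c) := lft_orth M (sep_kY hnm hsep hSp hK hET hEp) c
  have ht1 : IsTr (E.subgroupOf T) (lft u κ M.ε e) := isTr_lft M hκ hu hw hM hD.2.2
  have hB1 : IsBlock (tr (lft u κ M.ε e)) := tr_isBlock hb1 ho1
  have hB2 : IsBlock (tr (lft v (kY κ E D hnm) M.ε c)) := tr_isBlock hb2 ho2
  refine ⟨E, tr (lft u κ M.ε e), tr (lft v (kY κ E D hnm) M.ε c), hB1, ⟨hEp, ?_, ?_⟩, ?_, ?_, ?_, ?_⟩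
  · refine brNe_tr p hp hET hEp hb1.2.2.1 hb1.2.1 ho1 ?_
    refine brNe_lft M huu (fun s g hg => ?_) hD.2.1
    have hg1 : g ∈ Nm (img κ (pT (T := T) hEp)).1 := by
      rw [himg]
      exact Subgroup.centralizer_le_normalizer _ hg
    obtain ⟨t, ht, h1⟩ := exists_nm hκ hSp hK (pT (T := T) hEp) (s := s) hg1
    refine ⟨t, ?_, h1⟩
    have h2 := (mem_cent_iff (κ := κ) hSp hK (pT (T := T) hEp) ht).2
    apply h2
    rw [himg, h1]
    exact hg
  · exact isTr_tr hET ht1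
  · refine isCor_tr p hp hET hEp hb1.2.2.1 ht1 hb2.2.2.1 hB2 ?_
    intro n hn hnY hnc
    rw [lft_coeff, lft_coeff, map_mul, map_mul, map_mul, map_mul,
      rd_units_of p hp hu hv hmod]
    congr 2
    have h1 : kY κ E D hnm ⟨⟨n, hnY⟩, hn⟩ = ((κ ⟨n, hn⟩).1, ⟨(κ ⟨n, hn⟩).2, hnm ⟨n, hn⟩ hnY⟩) :=
      rfl
    rw [h1]
    symm
    rw [rd_eq]
    refine hc.2 ⟨(κ ⟨n, hn⟩).2, hnm ⟨n, hn⟩ hnY⟩ ?_
    rw [mem_cent] at hnc ⊢
    intro d hd
    have h2 : σ d * ⟨n, hn⟩ = ⟨n, hn⟩ * σ d :=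
      Subtype.ext (hnc (σ d : X) ⟨d, hd, rfl⟩)
    have h3 := congrArg (fun t => (κ t).2) h2
    simp only [map_mul, Prod.snd_mul, hσ] at h3
    exact h3
  · exact ⟨(D.equivMapOfInjective _ hτi).symm⟩
  · intro A _ _ hA
    exact tr_isAlg hb1.2.2.1 hb1.2.1 ho1 (lft_isAlg M hκ hu hA)
  · intro B _ _ hB
    exact tr_isAlg hb2.2.2.1 hb2.2.1 ho2 (lft_isAlg M hYs hv hB)

end broue

section instances

variable (p : ℕ) [Fact p.Prime] {Λ : Type} [CommRing Λ] [IsLocalRing Λ]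
  (hp : ¬ IsUnit (p : Λ)) (R : Rel Λ) (hR : MorInv R)
  {G H Ω : Type} [Group G] [Finite G] [Group H] [Finite H] [MulAction H Ω] [Finite Ω] {i : G →* H}
  (hi : Function.Injective i) (P : Type) [Group P]

theorem broue_abs {S X : Type} [Group S] [Finite S] [Group X] [Finite X] {T : Subgroup X}
    {κ : T →* S × G} (hp : ¬ IsUnit (p : Λ)) (hR : MorInv R)
    {m : Type} [Fintype m] [Nonempty m] (M : MatBlock Λ S m)
    (hS : IsUnit (Nat.card S : Λ)) (hκ : Function.Surjective κ) (hsep : Sep κ) {n : ℕ}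
    (hd : Nat.card κ.ker ∣ Nat.card S ^ n) (σ : G →* T) (hσ : ∀ g, κ (σ g) = (1, g))
    (h : Broue (Λ := Λ) p R P X) : Broue (Λ := Λ) p R P G := by
  intro e D c he hD hP hc A _ _ B _ _ hA hB
  obtain ⟨w, hw⟩ := hS.exists_left_inv
  obtain ⟨D', e', c', h1, h2, h3, ⟨f'⟩, h4, h5⟩ := transfer_abs M p hp hw hκ hsep hd σ hσ he hD hc
  obtain ⟨f⟩ := hP
  have h6 := h e' D' c' h1 h2 ⟨f'.trans f⟩ h3 _ _ (h4 A hA) (h5 B hB)
  exact hR _ _ _ _ morita_mat morita_mat h6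

include hp hR hi in
theorem broue_point (S : Type) [Group S] [Finite S] (hS : IsUnit (Nat.card S : Λ))
    (hgood : Good Λ S) {w : Ω} (hw : ∀ h : H, h • w = w ↔ h ∈ i.range)
    (h : Broue (Λ := Λ) p R P (Wr S H Ω)) : Broue (Λ := Λ) p R P G := by
  obtain ⟨m, i1, i2, ⟨M⟩⟩ := hgood.exists_matBlock hS
  exact broue_abs p R P hp hR M hS (pk_surj hi hw) (sep_pk hi hw) (pk_ker_dvd hi hw) (rs S Ω i)
    (pk_rs hi hw) h

include hp hR hi in
theorem broue_subset (S : Type) [CommGroup S] [Finite S] (hS : IsUnit (Nat.card S : Λ))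
    (hgood : Good Λ S) {Δ : Set Ω} (hΔ : ∀ h : H, (∀ w, h • w ∈ Δ ↔ w ∈ Δ) ↔ h ∈ i.range)
    (hne : Δ.Nonempty) (h : Broue (Λ := Λ) p R P (Wr S H Ω)) : Broue (Λ := Λ) p R P G := by
  obtain ⟨m, i1, i2, ⟨M⟩⟩ := hgood.exists_matBlock hS
  exact broue_abs p R P hp hR M hS (rk_surj hi hΔ hne) (sep_rk hi hΔ) (rk_ker_dvd hi hΔ)
    (rs S Ω i) (rk_rs hi hΔ) h

end instances

end Pool.Agent.Helper18.AW
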