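import Pool.Agent.Helper18.BR.Defs

/-!
# Alperin's weight conjecture for blocks: the definitions

`k` is a field of characteristic `p` (algebraically closed in the application).
-/

set_option autoImplicit false

open scoped Classical
open MonoidAlgebra CategoryTheory

noncomputable section

namespace Pool.Agent.Helper18.AW

open Pool.Agent.Helper18.BR

/-! ### blocks of defect zero -/

/-- The ring `A d` (`d` a central idempotent) is simple: each element `d x ≠ 0` generates `A d` as a
two-sided ideal. -/
def SimpleAt {A : Type} [Ring A] (d : A) : Prop :=
  ∀ x : A, d * x ≠ 0 → ∃ (ι : Type) (_ : Fintype ι) (a b : ι → A), ∑ i, a i * (d * x) * b i = d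

/-- The number of the blocks `d` of the ring `A` with `e d = d` and simple block algebra `A d`. For a
group algebra `A` these are the blocks of defect zero below the central idempotent `e`. -/
def zz {A : Type} [Ring A] (e : A) : ℕ :=
  Nat.card {d : A // IsBlock d ∧ SimpleAt d ∧ e * d = d}

/-! ### weights -/

/-- the `p`-subgroups of `X` -/
abbrev PSub (p : ℕ) (X : Type) [Group X] : Type := {Q : Subgroup X // IsPGroup p Q}

/-- the action of `X` on its `p`-subgroups by conjugation -/
instance conjPSub (p : ℕ) (X : Type) [Group X] : MulAction X (PSub p X) where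
  smul x Q := ⟨Q.1.map (MulAut.conj x).toMonoidHom, Q.2.map _⟩
  one_smul Q := by
    apply Subtype.ext
    change Q.1.map (MulAut.conj (1 : X)).toMonoidHom = Q.1
    rw [map_one]
    exact Subgroup.map_id Q.1
  mul_smul x y Q := by
    apply Subtype.ext
    change Q.1.map (MulAut.conj (x * y)).toMonoidHom =
      (Q.1.map (MulAut.conj y).toMonoidHom).map (MulAut.conj x).toMonoidHom
    rw [map_mul, Subgroup.map_map]
    rfl

section

variable {k : Type} [CommRing k] {X : Type} [Group X] [Finite X]

/-- The image in the group algebra of `N_X(Q)/Q` of the Brauer homomorphism of `Q` at `a`: the sum of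
the elements `a(y) yQ`, `y` in the centralizer of `Q`. -/
def brq (Q : Subgroup X) (a : MonoidAlgebra k X) : MonoidAlgebra k
    (Subgroup.normalizer (Q : Set X) ⧸ Q.subgroupOf (Subgroup.normalizer (Q : Set X))) :=
  ∑ᶠ y : Subgroup.centralizer (Q : Set X),
    single (QuotientGroup.mk ⟨y.1, Subgroup.centralizer_le_normalizer _ y.2⟩) (a.coeff y.1)

/-- The number of the conjugacy classes of weights of the block `e` of `kX`: the sum over the
conjugacy classes of `p`-subgroups `Q` of `X` of the numbers of blocks of defect zero of
`k[N_X(Q)/Q]` below the image of the Brauer homomorphism at `e`. -/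
def numWt (p : ℕ) (e : MonoidAlgebra k X) : ℕ :=
  ∑ᶠ c : MulAction.orbitRel.Quotient X (PSub p X), zz (brq (Quotient.out c).1 e)

end

/-! ### simple modules -/

/-- the number of the isomorphism classes of simple left `A`-modules -/
def numSim (A : Type) [Ring A] : ℕ :=
  Nat.card {c : Quotient (isIsomorphicSetoid (ModuleCat.{0} A)) //
    ∃ M : ModuleCat.{0} A, IsSimpleModule A M ∧ Quotient.mk _ M = c}

/-- **Alperin's weight conjecture for the blocks of `kX`**: for every block `e` of `kX` the number of
the simple modules of the block algebra is the number of the conjugacy classes of weights of `e`. -/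
def AWC (p : ℕ) (k : Type) [CommRing k] (X : Type) [Group X] [Finite X] : Prop :=
  ∀ e : MonoidAlgebra k X, IsBlock e → ∀ (A : Type) [Ring A] [Algebra k A], IsAlg k e A →
    numSim A = numWt p e

/-- Every block `z` of `kG` has a companion block `e` of `kX`, with a Morita equivalent block algebra
and with the same number of conjugacy classes of weights. -/
def Companions (p : ℕ) (k : Type) [CommRing k] (G : Type) [Group G] [Finite G] (X : Type) [Group X]
    [Finite X] : Prop :=
  ∀ z : MonoidAlgebra k G, IsBlock z → ∃ e : MonoidAlgebra k X, IsBlock e ∧ numWt p e = numWt p z ∧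
    ∀ (A : Type) [Ring A] [Algebra k A] (B : Type) [Ring B] [Algebra k B],
      IsAlg k e A → IsAlg k z B → IsMoritaEquivalent k A B

end Pool.Agent.Helper18.AW
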