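import Pool.Agent.Helper18.AW.Orb

/-!
# Sums over orbits
-/

set_option autoImplicit false
set_option linter.unusedSectionVars false

open scoped Classical
open MonoidAlgebra

noncomputable section

namespace Pool.Agent.Helper18.AW

open Pool.Agent.Helper18.BR

section orb

variable {Y P : Type} [Group Y] [Finite Y] [MulAction Y P] [Fintype P]

theorem orbit_sum (h : P → ℕ) (hh : ∀ (y : Y) (a : P), h (y • a) = h a)
    [Fintype (MulAction.orbitRel.Quotient Y P)] :
    Nat.card Y * ∑ ω : MulAction.orbitRel.Quotient Y P, h (Quotient.out ω) =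
      ∑ a, Nat.card (MulAction.stabilizer Y a) * h a := by
  rw [← Finset.sum_fiberwise (Finset.univ : Finset P)
    (fun a => (Quotient.mk _ a : MulAction.orbitRel.Quotient Y P)), Finset.mul_sum]
  refine Finset.sum_congr rfl fun ω _ => ?_
  have h1 : ∀ a ∈ Finset.univ.filter
      (fun a : P => (Quotient.mk _ a : MulAction.orbitRel.Quotient Y P) = ω),
      h a = h (Quotient.out ω) := by
    intro a ha
    have ha1 := (Finset.mem_filter.1 ha).2
    have ha2 : (Quotient.mk _ a : MulAction.orbitRel.Quotient Y P) =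
      Quotient.mk _ (Quotient.out ω) := by rw [ha1, Quotient.out_eq]
    obtain ⟨y, hy⟩ := Quotient.exact ha2
    rw [← hh y (Quotient.out ω)]
    exact congrArg h hy.symm
  have h2 : ∀ a ∈ Finset.univ.filter
      (fun a : P => (Quotient.mk _ a : MulAction.orbitRel.Quotient Y P) = ω),
      (Finset.univ.filter
      (fun a : P => (Quotient.mk _ a : MulAction.orbitRel.Quotient Y P) = ω)).card *
        Nat.card (MulAction.stabilizer Y a) = Nat.card Y := by
    intro a ha
    have ha1 := (Finset.mem_filter.1 ha).2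
    have : Fintype Y := Fintype.ofFinite Y
    have e1 := MulAction.card_orbit_mul_card_stabilizer_eq_card_group Y a
    rw [Nat.card_eq_fintype_card, Nat.card_eq_fintype_card, ← e1]
    congr 1
    rw [← Set.toFinset_card]
    congr 1
    ext b
    rw [Finset.mem_filter, Set.mem_toFinset, ← ha1]
    constructor
    · rintro ⟨_, hb⟩
      exact Quotient.exact hb
    · intro hb
      exact ⟨Finset.mem_univ _, Quotient.sound hb⟩
  rw [Finset.sum_congr rfl fun a ha => by rw [h1 a ha], ← Finset.sum_mul]
  congr 1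
  set s := Finset.univ.filter
      (fun a : P => (Quotient.mk _ a : MulAction.orbitRel.Quotient Y P) = ω) with hs
  have h3 : (Quotient.out ω) ∈ s := by
    rw [hs, Finset.mem_filter]
    exact ⟨Finset.mem_univ _, Quotient.out_eq ω⟩
  have h4 : 0 < s.card := Finset.card_pos.2 ⟨_, h3⟩
  have h5 : s.card * ∑ a ∈ s, Nat.card (MulAction.stabilizer Y a) = s.card * Nat.card Y := by
    rw [Finset.mul_sum, Finset.sum_congr rfl h2, Finset.sum_const, smul_eq_mul]
  exact (Nat.eq_of_mul_eq_mul_left h4 h5).symm

end orb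

section fr

variable {k : Type} [Field k] {Y P : Type} [Group Y] [Finite Y] [MulAction Y P] [Fintype P]

instance finDimMA : FiniteDimensional k (MonoidAlgebra k Y) :=
  Module.Finite.of_surjective (MonoidAlgebra.coeffLinearEquiv k).symm.toLinearMap
    (LinearEquiv.surjective _)

theorem zz_orbits (f : P → MonoidAlgebra k Y)
    (g : ∀ a : P, MonoidAlgebra k (MulAction.stabilizer Y a))
    (hg : ∀ a, inc _ (g a) = f a) (hcj : ∀ y a, cj y (f a) = f (y • a))
    (hi : ∀ a, f a * f a = f a) (ho : ∀ a b, a ≠ b → f a * f b = 0) :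
    Nat.card Y * zz (∑ a, f a) = ∑ a, Nat.card (MulAction.stabilizer Y a) * zz (g a) := by
  have : Fintype (MulAction.orbitRel.Quotient Y P) := Fintype.ofFinite _
  let c : MulAction.orbitRel.Quotient Y P → MonoidAlgebra k Y := fun ω =>
    ∑ a ∈ Finset.univ.filter
      (fun a : P => (Quotient.mk _ a : MulAction.orbitRel.Quotient Y P) = ω), f a
  have hgc : ∀ a, ∀ y, g a * y = y * g a := by
    intro a
    apply central_of_cj
    intro x
    apply inc_inj
    rw [← cj_inc, hg, hcj, x.2]
  have hgi : ∀ a, g a * g a = g a := by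
    intro a
    apply inc_inj
    rw [map_mul, hg, hi]
  have hgo : ∀ a, Orth (g a) := by
    intro a x hx
    rw [hg, mul_assoc, single_mul_eq, hcj, ← mul_assoc, ho, zero_mul]
    intro h
    exact hx h.symm
  have h1 : ∀ a, c (Quotient.mk _ a) = tr (g a) := by
    intro a
    have h2 : tr (g a) = ∑ q : Y ⧸ MulAction.stabilizer Y a, f (rp q • a) := by
      unfold tr
      refine Finset.sum_congr rfl fun q _ => ?_
      rw [hg, hcj]
    have : Fintype (MulAction.orbit Y a) := Fintype.ofFinite _
    have h3 : ∑ q : Y ⧸ MulAction.stabilizer Y a, f (rp q • a) =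
        ∑ b : MulAction.orbit Y a, f b.1 := by
      refine Fintype.sum_equiv (MulAction.orbitEquivQuotientStabilizer Y a).symm _ _ fun q => ?_
      have h4 := MulAction.orbitEquivQuotientStabilizer_symm_apply Y a (rp q)
      rw [QuotientGroup.out_eq'] at h4
      rw [h4]
    rw [h2, h3]
    change ∑ b ∈ Finset.univ.filter (fun b : P =>
      (Quotient.mk _ b : MulAction.orbitRel.Quotient Y P) = Quotient.mk _ a), f b = _
    refine Finset.sum_subtype _ (fun b => ?_) f
    rw [Finset.mem_filter]
    constructor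
    · rintro ⟨_, hb⟩
      exact Quotient.exact hb
    · intro hb
      exact ⟨Finset.mem_univ _, Quotient.sound hb⟩
  have h2 : ∑ a, f a = ∑ ω, c ω := (Finset.sum_fiberwise (Finset.univ : Finset P)
    (fun a => (Quotient.mk _ a : MulAction.orbitRel.Quotient Y P)) f).symm
  have h3 : ∀ ω, c ω = tr (g (Quotient.out ω)) := by
    intro ω
    rw [← h1, Quotient.out_eq]
  have h4 : zz (∑ a, f a) = ∑ ω, zz (c ω) := by
    rw [h2]
    refine zz_sum (k := k) c (fun ω x => ?_) (fun ω => ?_) (fun ω ω' hne => ?_)
    · rw [h3]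
      exact tr_central (hgc _) x
    · rw [h3]
      exact tr_mul_tr (hgc _) (hgi _) (hgo _)
    · change (∑ a ∈ _, f a) * (∑ a ∈ _, f a) = 0
      rw [Finset.sum_mul_sum]
      refine Finset.sum_eq_zero fun a ha => Finset.sum_eq_zero fun b hb => ho a b ?_
      rintro rfl
      exact hne ((Finset.mem_filter.1 ha).2.symm.trans (Finset.mem_filter.1 hb).2)
  have h5 : ∀ a, zz (g a) = zz (c (Quotient.mk _ a)) := by
    intro a
    rw [h1, zz_tr (hgc _) (hgi _) (hgo _)]
  rw [h4]
  have h6 := orbit_sum (Y := Y) (P := P) (fun a => zz (g a)) (fun y a => by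
    rw [h5, h5]
    congr 2
    exact Quotient.sound ⟨y, rfl⟩)
  rw [← h6]
  congr 1
  refine Finset.sum_congr rfl fun ω _ => ?_
  rw [h5, Quotient.out_eq]

end fr

end Pool.Agent.Helper18.AW
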