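import Pool.Agent.Helper18.AW.Tr

/-!
# Weights of lifted blocks
-/

set_option autoImplicit false
set_option linter.unusedSectionVars false

open scoped Classical
open MonoidAlgebra

noncomputable section

namespace Pool.Agent.Helper18.AW

open Pool.Agent.Helper18.BR

theorem eq_one_of_pow {A : Type} [Group A] [Finite A] {p : ℕ} [hp : Fact p.Prime]
    (h : ¬ p ∣ Nat.card A) {a : A} {n : ℕ} (ha : a ^ p ^ n = 1) : a = 1 := by
  have h1 : orderOf a ∣ p ^ n := orderOf_dvd_of_pow_eq_one ha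
  have h2 : orderOf a ∣ Nat.card A := orderOf_dvd_natCard a
  have h3 : Nat.Coprime (p ^ n) (Nat.card A) :=
    Nat.Coprime.pow_left n ((Nat.Prime.coprime_iff_not_dvd hp.out).2 h)
  have h4 : orderOf a ∣ 1 := by
    rw [← h3]
    exact Nat.dvd_gcd h1 h2
  exact orderOf_eq_one_iff.1 (Nat.dvd_one.1 h4)

variable {T S G : Type} [Group T] [Finite T] [Group S] [Finite S] [Group G] [Finite G]
  {p : ℕ} [hp : Fact p.Prime] {κ : T →* S × G} (hκ : Function.Surjective κ)
  (hS : ¬ p ∣ Nat.card S) (hK : ¬ p ∣ Nat.card κ.ker)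

section lemmas

include hS in
theorem fst_one {R : Subgroup T} (hR : IsPGroup p R) {r : T} (hr : r ∈ R) : (κ r).1 = 1 := by
  obtain ⟨n, hn⟩ := hR ⟨r, hr⟩
  refine eq_one_of_pow hS (n := n) ?_
  have h1 : r ^ p ^ n = 1 := congrArg Subtype.val hn
  rw [← Prod.pow_fst, ← map_pow, h1, map_one]
  rfl

include hK in
theorem eq_one_of_ker {R : Subgroup T} (hR : IsPGroup p R) {r : T} (hr : r ∈ R)
    (h : κ r = 1) : r = 1 := by
  obtain ⟨n, hn⟩ := hR ⟨r, hr⟩
  have h1 : r ^ p ^ n = 1 := congrArg Subtype.val hn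
  have h2 : (⟨r, h⟩ : κ.ker) = 1 := eq_one_of_pow hK (n := n) (Subtype.ext h1)
  exact congrArg Subtype.val h2

include hK in
theorem inj_on {R : Subgroup T} (hR : IsPGroup p R) {r s : T} (hr : r ∈ R) (hs : s ∈ R)
    (h : κ r = κ s) : r = s := by
  have h1 := eq_one_of_ker hK hR (R.mul_mem hr (R.inv_mem hs)) (by
    rw [map_mul, map_inv, h, mul_inv_cancel])
  exact mul_inv_eq_one.1 h1

/-- the image in `G` -/
def img (κ : T →* S × G) (R : PSub p T) : PSub p G :=
  ⟨R.1.map ((MonoidHom.snd S G).comp κ), R.2.map _⟩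

theorem img_smul (t : T) (R : PSub p T) : img κ (t • R) = (κ t).2 • img κ R := by
  apply Subtype.ext
  change (R.1.map (MulAut.conj t).toMonoidHom).map _ =
    (R.1.map _).map (MulAut.conj (κ t).2).toMonoidHom
  rw [Subgroup.map_map, Subgroup.map_map]
  congr 1
  ext x
  change (κ (t * x * t⁻¹)).2 = (κ t).2 * (κ x).2 * (κ t).2⁻¹
  rw [map_mul, map_mul, map_inv]
  rfl

include hS in
theorem exists_of_img {R R' : PSub p T} (h : img κ R = img κ R') {r : T} (hr : r ∈ R.1) :
    ∃ s ∈ R'.1, κ s = κ r := by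
  have h1 : (κ r).2 ∈ (img κ R').1 := by
    rw [← h]
    exact ⟨r, hr, rfl⟩
  obtain ⟨s, hs, h2⟩ := h1
  refine ⟨s, hs, Prod.ext ?_ h2⟩
  rw [fst_one hS R'.2 hs, fst_one hS R.2 hr]

include hS hK in
/-- two `p`-subgroups with the same image are conjugate -/
theorem exists_conj {R₁ R₂ : PSub p T} (h : img κ R₁ = img κ R₂) :
    ∃ c : T, κ c = 1 ∧ c • R₁ = R₂ := by
  choose f hf using fun r : R₂.1 => exists_of_img hS h.symm r.2
  have hf1 : f 1 = 1 := inj_on hK R₁.2 (hf 1).1 R₁.1.one_mem (by rw [(hf 1).2]; rfl)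
  have hfm : ∀ r s, f (r * s) = f r * f s := by
    intro r s
    refine inj_on hK R₁.2 (hf _).1 (R₁.1.mul_mem (hf r).1 (hf s).1) ?_
    rw [(hf _).2, map_mul, (hf r).2, (hf s).2, ← map_mul]
    rfl
  let _ : MulAction R₂.1 κ.ker :=
    { smul := fun r c => ⟨r.1 * c.1 * (f r)⁻¹, by
        rw [MonoidHom.mem_ker, map_mul, map_mul, map_inv, MonoidHom.mem_ker.1 c.2, mul_one,
          (hf r).2, mul_inv_cancel]⟩
      one_smul := fun c => by
        apply Subtype.ext
        change ((1 : R₂.1) : T) * c.1 * (f 1)⁻¹ = c.1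
        rw [hf1]
        simp
      mul_smul := fun r s c => by
        apply Subtype.ext
        change ((r * s : R₂.1) : T) * c.1 * (f (r * s))⁻¹ =
          r.1 * (s.1 * c.1 * (f s)⁻¹) * (f r)⁻¹
        rw [hfm]
        push_cast
        group }
  obtain ⟨c, hc⟩ := R₂.2.nonempty_fixed_point_of_prime_not_dvd_card κ.ker hK
  have hc1 : ∀ r : R₂.1, r.1 = c.1 * f r * c.1⁻¹ := by
    intro r
    have h2 : r.1 * c.1 * (f r)⁻¹ = c.1 := congrArg Subtype.val (hc r)
    rw [eq_mul_inv_iff_mul_eq, ← mul_inv_eq_iff_eq_mul, h2]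
  refine ⟨c.1, c.2, Subtype.ext ?_⟩
  ext y
  constructor
  · rintro ⟨t, ht, rfl⟩
    obtain ⟨r, hr, h3⟩ := exists_of_img hS h ht
    have h4 : t = f ⟨r, hr⟩ := inj_on hK R₁.2 ht (hf _).1 (by rw [(hf _).2, h3])
    change c.1 * t * c.1⁻¹ ∈ R₂.1
    rw [h4, ← hc1]
    exact hr
  · intro hy
    refine ⟨f ⟨y, hy⟩, (hf _).1, ?_⟩
    exact (hc1 ⟨y, hy⟩).symm

include hκ hS hK in
theorem exists_nm (R : PSub p T) {s : S} {g : G} (hg : g ∈ Nm (img κ R).1) :
    ∃ t ∈ Nm R.1, κ t = (s, g) := by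
  obtain ⟨t, ht⟩ := hκ (s, g)
  have h1 : img κ (t • R) = img κ R := by
    rw [img_smul, ht]
    exact mem_stab.2 hg
  obtain ⟨c, hc, h2⟩ := exists_conj hS hK h1
  refine ⟨c * t, mem_stab.1 ?_, by rw [map_mul, hc, one_mul, ht]⟩
  rw [MulAction.mem_stabilizer_iff, mul_smul, h2]

theorem snd_nm (R : PSub p T) {t : T} (ht : t ∈ Nm R.1) : (κ t).2 ∈ Nm (img κ R).1 := by
  have h1 : t • R = R := mem_stab.2 ht
  refine mem_stab.1 ?_
  rw [MulAction.mem_stabilizer_iff, ← img_smul, h1]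

include hS hK in
theorem mem_cent_iff (R : PSub p T) {t : T} (ht : t ∈ Nm R.1) :
    t ∈ Subgroup.centralizer (R.1 : Set T) ↔
      (κ t).2 ∈ Subgroup.centralizer ((img κ R).1 : Set G) := by
  rw [Subgroup.mem_centralizer_iff, Subgroup.mem_centralizer_iff]
  constructor
  · rintro h y ⟨r, hr, rfl⟩
    change (κ r).2 * (κ t).2 = (κ t).2 * (κ r).2
    rw [← Prod.snd_mul, ← Prod.snd_mul, ← map_mul, h r hr, map_mul]
  · intro h r hr
    have h1 : t * r * t⁻¹ ∈ R.1 := (Subgroup.mem_normalizer_iff.1 ht r).1 hr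
    have h2 : t * r * t⁻¹ = r := by
      refine inj_on hK R.2 h1 hr (Prod.ext ?_ ?_)
      · rw [fst_one hS R.2 h1, fst_one hS R.2 hr]
      · have h3 : (κ r).2 * (κ t).2 = (κ t).2 * (κ r).2 := h _ ⟨r, hr, rfl⟩
        rw [map_mul, map_mul, map_inv, Prod.snd_mul, Prod.snd_mul, Prod.snd_inv, ← h3]
        exact mul_inv_cancel_right _ _
    rw [mul_inv_eq_iff_eq_mul] at h2
    exact h2.symm

end lemmas

section psi

/-- the homomorphism on the normalizer -/
def ps0 (κ : T →* S × G) (R : PSub p T) : Nm R.1 →* S × YQ (img κ R).1 where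
  toFun t := ((κ t.1).1, pr _ ⟨(κ t.1).2, snd_nm R t.2⟩)
  map_one' := by
    refine Prod.ext ?_ ?_
    · change (κ 1).1 = 1
      rw [map_one]
      rfl
    · change pr _ _ = 1
      rw [QuotientGroup.mk'_apply, QuotientGroup.eq_one_iff, Subgroup.mem_subgroupOf]
      change (κ 1).2 ∈ _
      rw [map_one]
      exact Subgroup.one_mem _
  map_mul' t t' := by
    refine Prod.ext ?_ ?_
    · change (κ (t.1 * t'.1)).1 = _
      rw [map_mul]
      rfl
    · change pr _ _ = pr _ _ * pr _ _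
      rw [← map_mul]
      congr 1
      apply Subtype.ext
      change (κ (t.1 * t'.1)).2 = _
      rw [map_mul]
      rfl

theorem ps0_apply (R : PSub p T) (t : Nm R.1) :
    ps0 κ R t = ((κ t.1).1, pr _ ⟨(κ t.1).2, snd_nm R t.2⟩) := rfl

include hS in
theorem ps0_mem (R : PSub p T) {t : Nm R.1} (ht : t ∈ R.1.subgroupOf (Nm R.1)) :
    ps0 κ R t = 1 := by
  rw [Subgroup.mem_subgroupOf] at ht
  refine Prod.ext (show (κ t.1).1 = 1 from fst_one hS R.2 ht) ?_
  change pr _ _ = 1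
  rw [QuotientGroup.mk'_apply, QuotientGroup.eq_one_iff, Subgroup.mem_subgroupOf]
  exact ⟨_, ht, rfl⟩

/-- the induced homomorphism -/
def ps (κ : T →* S × G) (hS : ¬ p ∣ Nat.card S) (R : PSub p T) :
    YQ R.1 →* S × YQ (img κ R).1 :=
  QuotientGroup.lift _ (ps0 κ R) fun _ ht => ps0_mem hS R ht

theorem ps_pr (R : PSub p T) (t : Nm R.1) : ps κ hS R (pr R.1 t) = ps0 κ R t := rfl

include hκ hK in
theorem ps_surj (R : PSub p T) : Function.Surjective (ps κ hS R) := by
  rintro ⟨s, y⟩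
  obtain ⟨g, rfl⟩ := QuotientGroup.mk'_surjective _ y
  obtain ⟨t, ht, h1⟩ := exists_nm hκ hS hK R (s := s) g.2
  refine ⟨pr R.1 ⟨t, ht⟩, ?_⟩
  rw [ps_pr, ps0_apply]
  have h2 : (κ t).1 = s := by rw [h1]
  have h3 : (κ t).2 = g.1 := by rw [h1]
  refine Prod.ext h2 ?_
  change pr _ _ = pr _ _
  congr 1
  exact Subtype.ext h3

include hK in
theorem card_ps_ker (R : PSub p T) : Nat.card κ.ker ≡ Nat.card (ps κ hS R).ker [MOD p] := by
  let _ : MulAction R.1 κ.ker :=
    { smul := fun r c => ⟨r.1 * c.1 * r.1⁻¹, by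
        rw [MonoidHom.mem_ker, map_mul, map_mul, map_inv, MonoidHom.mem_ker.1 c.2, mul_one,
          mul_inv_cancel]⟩
      one_smul := fun c => by
        apply Subtype.ext
        change ((1 : R.1) : T) * c.1 * ((1 : R.1) : T)⁻¹ = c.1
        simp
      mul_smul := fun r s c => by
        apply Subtype.ext
        change ((r * s : R.1) : T) * c.1 * ((r * s : R.1) : T)⁻¹ =
          r.1 * (s.1 * c.1 * s.1⁻¹) * r.1⁻¹
        push_cast
        group }
  have h1 := R.2.card_modEq_card_fixedPoints κ.ker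
  refine h1.trans ?_
  have hfix : ∀ c : κ.ker, c ∈ MulAction.fixedPoints R.1 κ.ker ↔ ∀ r ∈ R.1, r * c.1 = c.1 * r := by
    intro c
    constructor
    · intro h r hr
      exact mul_inv_eq_iff_eq_mul.1 (congrArg Subtype.val (h ⟨r, hr⟩))
    · intro h r
      exact Subtype.ext (mul_inv_eq_iff_eq_mul.2 (h r.1 r.2))
  have hnm : ∀ c : MulAction.fixedPoints R.1 κ.ker, c.1.1 ∈ Nm R.1 := by
    intro c
    exact Subgroup.centralizer_le_normalizer _ (Subgroup.mem_centralizer_iff.2 fun r hr =>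
      (hfix c.1).1 c.2 r hr)
  let f : MulAction.fixedPoints R.1 κ.ker → (ps κ hS R).ker := fun c =>
    ⟨pr R.1 ⟨c.1.1, hnm c⟩, by
      rw [MonoidHom.mem_ker, ps_pr, ps0_apply]
      refine Prod.ext ?_ ?_
      · change (κ c.1.1).1 = 1
        rw [MonoidHom.mem_ker.1 c.1.2]
        rfl
      · change pr _ _ = 1
        rw [QuotientGroup.mk'_apply, QuotientGroup.eq_one_iff, Subgroup.mem_subgroupOf]
        change (κ c.1.1).2 ∈ _
        rw [MonoidHom.mem_ker.1 c.1.2]
        exact Subgroup.one_mem _⟩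
  have hf : Function.Bijective f := by
    constructor
    · intro c d hcd
      have h2 : (pr R.1 ⟨c.1.1, hnm c⟩ : YQ R.1) = pr R.1 ⟨d.1.1, hnm d⟩ :=
        congrArg Subtype.val hcd
      have h3 : c.1.1⁻¹ * d.1.1 ∈ R.1 := by
        have := QuotientGroup.eq.1 h2
        rw [Subgroup.mem_subgroupOf] at this
        exact this
      have h4 := eq_one_of_ker hK R.2 h3 (by
        rw [map_mul, map_inv, MonoidHom.mem_ker.1 c.1.2, MonoidHom.mem_ker.1 d.1.2]
        simp)
      exact Subtype.ext (Subtype.ext (inv_mul_eq_one.1 h4))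
    · rintro ⟨y, hy⟩
      obtain ⟨t, rfl⟩ := QuotientGroup.mk'_surjective _ y
      rw [MonoidHom.mem_ker, QuotientGroup.mk'_apply] at hy
      change ps0 κ R t = 1 at hy
      rw [ps0_apply] at hy
      have h2 : (κ t.1).1 = 1 := congrArg Prod.fst hy
      have h3 : (κ t.1).2 ∈ (img κ R).1 := by
        have h4 : pr (img κ R).1 ⟨(κ t.1).2, snd_nm R t.2⟩ = 1 := congrArg Prod.snd hy
        rw [QuotientGroup.mk'_apply, QuotientGroup.eq_one_iff, Subgroup.mem_subgroupOf] at h4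
        exact h4
      obtain ⟨r, hr, h4⟩ := h3
      have h5 : κ r = κ t.1 := by
        refine Prod.ext ?_ h4
        rw [h2, fst_one hS R.2 hr]
      have h6 : κ (t.1 * r⁻¹) = 1 := by
        rw [map_mul, map_inv, h5, mul_inv_cancel]
      have h7 : t.1 * r⁻¹ ∈ Nm R.1 :=
        (Nm R.1).mul_mem t.2 ((Nm R.1).inv_mem (Subgroup.le_normalizer hr))
      have h8 : (⟨t.1 * r⁻¹, h6⟩ : κ.ker) ∈ MulAction.fixedPoints R.1 κ.ker := by
        rw [hfix]
        have h9 : t.1 * r⁻¹ ∈ Subgroup.centralizer (R.1 : Set T) := by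
          rw [mem_cent_iff hS hK R h7, h6]
          exact Subgroup.one_mem _
        exact Subgroup.mem_centralizer_iff.1 h9
      refine ⟨⟨_, h8⟩, Subtype.ext ?_⟩
      change (pr R.1 _ : YQ R.1) = pr R.1 t
      rw [QuotientGroup.mk'_apply, QuotientGroup.mk'_apply, QuotientGroup.eq,
        Subgroup.mem_subgroupOf]
      change (t.1 * r⁻¹)⁻¹ * t.1 ∈ R.1
      rw [mul_inv_rev, inv_inv, inv_mul_cancel_right]
      exact hr
  rw [Nat.card_congr (Equiv.ofBijective f hf)]

end psi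

section brq

variable {k : Type} [Field k] [CharP k p] {m : Type} [Fintype m] [Nonempty m]
  (M : MatBlock k S m)

include hK in
theorem brq_lft (R : PSub p T) (u : k) (ε : MonoidAlgebra k S) (z : MonoidAlgebra k G) :
    brq R.1 (lft u κ ε z) = lft u (ps κ hS R) ε (brq (img κ R).1 z) := by
  have : Fintype (Nm R.1) := Fintype.ofFinite _
  have : Fintype (Nm (img κ R).1) := Fintype.ofFinite _
  ext y
  obtain ⟨n₀, rfl⟩ := QuotientGroup.mk'_surjective _ y
  rw [brq_eq, brq_eq, lft_coeff, push_coeff, push_coeff, finsum_eq_sum_of_fintype,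
    finsum_eq_sum_of_fintype, Finset.mul_sum, Finset.mul_sum]
  change _ = ∑ g : {g // pr (img κ R).1 g = (ps0 κ R n₀).2}, _
  have hmem : ∀ n : {n // pr R.1 n = pr R.1 n₀}, n₀.1⁻¹ * n.1.1 ∈ R.1 := by
    intro n
    have h1 := QuotientGroup.eq.1 n.2.symm
    rw [Subgroup.mem_subgroupOf] at h1
    exact h1
  let f : {n // pr R.1 n = pr R.1 n₀} → {g // pr (img κ R).1 g = (ps0 κ R n₀).2} := fun n =>
    ⟨⟨(κ n.1.1).2, snd_nm R n.1.2⟩, by
      have h1 : ps κ hS R (pr R.1 n.1) = ps κ hS R (pr R.1 n₀) := by rw [n.2]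
      rw [ps_pr, ps_pr] at h1
      exact congrArg Prod.snd h1⟩
  have hf : Function.Bijective f := by
    constructor
    · intro n n' h
      have h1 : (κ n.1.1).2 = (κ n'.1.1).2 := congrArg (fun x => x.1.1) h
      have h2 : n₀.1⁻¹ * n.1.1 = n₀.1⁻¹ * n'.1.1 := by
        refine inj_on hK R.2 (hmem n) (hmem n') (Prod.ext ?_ ?_)
        · rw [fst_one hS R.2 (hmem n), fst_one hS R.2 (hmem n')]
        · rw [map_mul, map_mul, Prod.snd_mul, Prod.snd_mul, h1]
      exact Subtype.ext (Subtype.ext (mul_left_cancel h2))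
    · rintro ⟨g, hg⟩
      have h1 : ((κ n₀.1).2)⁻¹ * g.1 ∈ (img κ R).1 := by
        have h2 := QuotientGroup.eq.1 hg.symm
        rw [Subgroup.mem_subgroupOf] at h2
        exact h2
      obtain ⟨r, hr, h2⟩ := h1
      refine ⟨⟨⟨n₀.1 * r, (Nm R.1).mul_mem n₀.2 (Subgroup.le_normalizer hr)⟩, ?_⟩, ?_⟩
      · rw [QuotientGroup.mk'_apply, QuotientGroup.mk'_apply, eq_comm, QuotientGroup.eq,
          Subgroup.mem_subgroupOf]
        change n₀.1⁻¹ * (n₀.1 * r) ∈ R.1
        rw [inv_mul_cancel_left]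
        exact hr
      · apply Subtype.ext
        apply Subtype.ext
        change (κ (n₀.1 * r)).2 = g.1
        rw [map_mul, Prod.snd_mul]
        change (κ n₀.1).2 * (MonoidHom.snd S G).comp κ r = g.1
        rw [h2, mul_inv_cancel_left]
  refine Fintype.sum_bijective f hf _ _ fun n => ?_
  rw [bc_coeff, lft_coeff, bc_coeff]
  have h1 : (κ n.1.1).1 = (κ n₀.1).1 := by
    have h2 : (κ (n₀.1⁻¹ * n.1.1)).1 = 1 := fst_one hS R.2 (hmem n)
    rw [map_mul, map_inv, Prod.fst_mul, Prod.fst_inv, inv_mul_eq_one] at h2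
    exact h2.symm
  by_cases h2 : n.1.1 ∈ Subgroup.centralizer (R.1 : Set T)
  · rw [if_pos h2, if_pos ((mem_cent_iff hS hK R n.1.2).1 h2), h1]
    rfl
  · rw [if_neg h2, if_neg (fun h => h2 ((mem_cent_iff hS hK R n.1.2).2 h)), mul_zero, mul_zero]

include hκ hK hS in
theorem zz_brq_lft (R : PSub p T) {u : k} (hu : u * (Nat.card κ.ker : k) = 1)
    (z : MonoidAlgebra k G) :
    zz (brq R.1 (lft u κ M.ε z)) = zz (brq (img κ R).1 z) := by
  rw [brq_lft hS hK]
  refine zz_lft M (ps_surj hκ hS hK R) ?_ _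
  rw [← hu]
  congr 1
  exact ((CharP.natCast_eq_natCast k p).2 (card_ps_ker hS hK R)).symm

include hκ hK hS in
theorem numWt_lft {u : k} (hu : u * (Nat.card κ.ker : k) = 1) (σ : G →* T)
    (hσ : ∀ g, κ (σ g) = (1, g)) {z : MonoidAlgebra k G} (hz : ∀ g, cj g z = z) :
    numWt p (lft u κ M.ε z) = numWt p z := by
  let F : MulAction.orbitRel.Quotient T (PSub p T) → MulAction.orbitRel.Quotient G (PSub p G) :=
    Quotient.map (img κ) (by
      rintro R R' ⟨t, ht⟩
      refine ⟨(κ t).2, ?_⟩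
      change (κ t).2 • img κ R' = img κ R
      rw [← img_smul]
      exact congrArg _ ht)
  have hF : Function.Bijective F := by
    constructor
    · intro c c'
      refine Quotient.inductionOn₂ c c' fun R R' h => ?_
      obtain ⟨g, hg⟩ := Quotient.exact h
      obtain ⟨t, ht⟩ := hκ (1, g)
      have h1 : img κ (t • R') = img κ R := by
        rw [img_smul, ht]
        exact hg
      obtain ⟨c, -, hc⟩ := exists_conj hS hK h1
      refine Quotient.sound ⟨c * t, ?_⟩
      change (c * t) • R' = R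
      rw [mul_smul, hc]
    · intro c
      refine Quotient.inductionOn c fun D => ?_
      refine ⟨Quotient.mk _ ⟨D.1.map σ, D.2.map _⟩, ?_⟩
      change Quotient.mk _ (img κ _) = _
      congr 1
      apply Subtype.ext
      change (D.1.map σ).map _ = D.1
      rw [Subgroup.map_map]
      have h1 : ((MonoidHom.snd S G).comp κ).comp σ = MonoidHom.id G := by
        ext g
        change (κ (σ g)).2 = g
        rw [hσ]
      rw [h1, Subgroup.map_id]
  unfold numWt
  refine finsum_eq_of_bijective F hF fun c => ?_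
  rw [zz_brq_lft hκ hS hK M _ hu]
  have h1 : (Quotient.mk _ (img κ (Quotient.out c)) :
      MulAction.orbitRel.Quotient G (PSub p G)) = F c := by
    conv_rhs => rw [← Quotient.out_eq c]
    rfl
  rw [← Quotient.out_eq (F c)] at h1
  obtain ⟨g, hg⟩ := Quotient.exact h1
  have h2 : g • Quotient.out (F c) = img κ (Quotient.out c) := hg
  rw [← h2, zz_brq_conj g _ hz]

end brq

end Pool.Agent.Helper18.AW
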