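import Pool.Agent.Helper18.AW.Kp

/-!
# Simple modules; matrix blocks of groups of order prime to `p`
-/

set_option autoImplicit false
set_option linter.unusedSectionVars false

open scoped Classical
open MonoidAlgebra CategoryTheory

noncomputable section

namespace Pool.Agent.Helper18.AW

open Pool.Agent.Helper18.BR

theorem numSim_of_equiv {A B : Type} [Ring A] [Ring B]
    (e : ModuleCat.{0} A ≌ ModuleCat.{0} B) : numSim A = numSim B := by
  let F : Quotient (isIsomorphicSetoid (ModuleCat.{0} A)) →
      Quotient (isIsomorphicSetoid (ModuleCat.{0} B)) :=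
    Quotient.map e.functor.obj (fun M N ⟨f⟩ => ⟨e.functor.mapIso f⟩)
  have hF : Function.Bijective F := by
    constructor
    · intro c c'
      refine Quotient.inductionOn₂ c c' fun M N h => ?_
      obtain ⟨f⟩ := Quotient.exact h
      exact Quotient.sound ⟨e.functor.preimageIso f⟩
    · intro c
      refine Quotient.inductionOn c fun N => ?_
      exact ⟨Quotient.mk _ (e.inverse.obj N), Quotient.sound ⟨e.counitIso.app N⟩⟩
  unfold numSim
  refine Nat.card_congr ((Equiv.ofBijective F hF).subtypeEquiv fun c => ?_)
  rw [Equiv.ofBijective_apply]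
  constructor
  · rintro ⟨M, hM, rfl⟩
    have : Simple M := (simple_iff_isSimpleModule' M).2 hM
    exact ⟨e.functor.obj M, (simple_iff_isSimpleModule' _).1 (simple_obj e.functor M), rfl⟩
  · rintro ⟨N, hN, h⟩
    have : Simple N := (simple_iff_isSimpleModule' N).2 hN
    refine ⟨e.inverse.obj N, (simple_iff_isSimpleModule' _).1 (simple_obj e.inverse N), ?_⟩
    apply hF.1
    rw [← h]
    exact Quotient.sound ⟨e.counitIso.app N⟩

theorem numSim_of_morita {k A B : Type} [CommRing k] [Ring A] [Algebra k A] [Ring B] [Algebra k B]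
    (h : IsMoritaEquivalent k A B) : numSim A = numSim B := by
  obtain ⟨⟨e⟩⟩ := h
  exact numSim_of_equiv e.eqv

theorem isAlg_unique {k A B C : Type} [CommRing k] [Ring A] [Algebra k A] [Ring B] [Algebra k B]
    [Ring C] [Algebra k C] {e : A} (h : IsAlg k e B) (h' : IsAlg k e C) : Nonempty (B ≃ₐ[k] C) := by
  obtain ⟨f, hf, h1⟩ := h
  obtain ⟨g, hg, h2⟩ := h'
  have hker : RingHom.ker f = RingHom.ker g := by
    ext x
    rw [RingHom.mem_ker, RingHom.mem_ker, h1, h2]
  exact ⟨(Ideal.quotientKerAlgEquivOfSurjective hf).symm.trans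
    ((Ideal.quotientEquivAlgOfEq k hker).trans (Ideal.quotientKerAlgEquivOfSurjective hg))⟩

/-- a nontrivial group of order prime to `p` has a nontrivial irreducible representation -/
theorem good_of_nontrivial {k : Type} [Field k] [IsAlgClosed k] {S : Type} [Group S] [Finite S]
    [Nontrivial S] (hS : (Nat.card S : k) ≠ 0) : Good k S := by
  have : Fintype S := Fintype.ofFinite S
  have : NeZero (Nat.card S : k) := ⟨hS⟩
  obtain ⟨n, d, hd, ⟨φ⟩⟩ := IsSemisimpleRing.exists_algEquiv_pi_matrix_of_isAlgClosed k
    (MonoidAlgebra k S)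
  let τ : ∀ i, MonoidAlgebra k S →ₐ[k] Matrix (Fin (d i)) (Fin (d i)) k := fun i =>
    (Pi.evalAlgHom k (fun i => Matrix (Fin (d i)) (Fin (d i)) k) i).comp
      (φ : MonoidAlgebra k S →ₐ[k] _)
  have hsurj : ∀ i, Function.Surjective (τ i) := fun i =>
    (Function.surjective_eval i).comp φ.surjective
  have hne : ∀ i, Nonempty (Fin (d i)) := fun i => by
    have := hd i
    infer_instance
  by_contra hno
  have h1 : ∀ i (t : S), τ i (single t 1) = 1 := by
    intro i t
    have h2 : ∑ s : S, τ i (single s 1) ≠ 0 := by
      intro h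
      refine hno ⟨Fin (d i), inferInstance, inferInstance, hne i, τ i, hsurj i, ?_⟩
      rw [finsum_eq_sum_of_fintype]
      exact h
    have h3 : ∀ t : S, (∑ s : S, τ i (single s 1)) * τ i (single t 1) =
        ∑ s : S, τ i (single s 1) := by
      intro t
      rw [Finset.sum_mul]
      refine Fintype.sum_equiv (Equiv.mulRight t) _ _ fun s => ?_
      rw [← map_mul, single_mul_single, mul_one]
      rfl
    have h4 : ∀ t : S, τ i (single t 1) * (∑ s : S, τ i (single s 1)) =
        ∑ s : S, τ i (single s 1) := by
      intro t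
      rw [Finset.mul_sum]
      refine Fintype.sum_equiv (Equiv.mulLeft t) _ _ fun s => ?_
      rw [← map_mul, single_mul_single, mul_one]
      rfl
    have h5 : ∀ y : MonoidAlgebra k S, (∑ s : S, τ i (single s 1)) * τ i y =
        τ i y * (∑ s : S, τ i (single s 1)) := by
      intro y
      induction y using MonoidAlgebra.induction_linear with
      | zero => rw [map_zero, mul_zero, zero_mul]
      | add y z hy hz => rw [map_add, mul_add, add_mul, hy, hz]
      | single t r =>
        have h6 : (single t r : MonoidAlgebra k S) = r • single t 1 := by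
          rw [smul_single, smul_eq_mul, mul_one]
        rw [h6, map_smul, mul_smul_comm, smul_mul_assoc, h3, h4]
    have h7 : ∀ N : Matrix (Fin (d i)) (Fin (d i)) k, (∑ s : S, τ i (single s 1)) * N =
        N * (∑ s : S, τ i (single s 1)) := by
      intro N
      obtain ⟨y, rfl⟩ := hsurj i N
      exact h5 y
    have := hne i
    obtain ⟨c, hc, -⟩ := exists_scalar h7
    have hc0 : c ≠ 0 := by
      rintro rfl
      exact h2 (by rw [hc, map_zero])
    have hc' : ∑ s : S, τ i (single s 1) = c • (1 : Matrix (Fin (d i)) (Fin (d i)) k) := by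
      rw [hc]
      ext a b
      by_cases hab : a = b
      · subst hab
        simp
      · simp [hab]
    have h8 := h3 t
    rw [hc', smul_mul_assoc, one_mul] at h8
    exact smul_right_injective _ hc0 h8
  obtain ⟨t, ht⟩ := exists_ne (1 : S)
  have h2 : (single t 1 : MonoidAlgebra k S) = 1 := by
    apply φ.injective
    funext i
    rw [map_one]
    exact h1 i t
  have h3 := congrArg (fun y : MonoidAlgebra k S => y.coeff t) h2
  simp only [one_def, coeff_single, Finsupp.single_apply] at h3
  rw [if_pos trivial, if_neg (Ne.symm ht)] at h3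
  exact one_ne_zero h3

end Pool.Agent.Helper18.AW
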