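import Pool.Agent.Helper18.AW.Ls

/-!
# Weights and wreath products
-/

set_option autoImplicit false
set_option linter.unusedSectionVars false

open scoped Classical
open MonoidAlgebra

noncomputable section

namespace Pool.Agent.Helper18.AW

open Pool.Agent.Helper18.BR

variable (p : ℕ) [Fact p.Prime] (k : Type) [Field k] [IsAlgClosed k] [CharP k p]
  (S : Type) [Group S] [Finite S] [Nontrivial S] (hS : ¬ p ∣ Nat.card S)
  {G H : Type} [Group G] [Finite G] [Group H] [Finite H] (i : G →* H)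
  (hi : Function.Injective i)

include hS hi in
theorem exists_block (z : MonoidAlgebra k G) (hz : IsBlock z) :
    ∃ e : MonoidAlgebra k (Wr S H (H ⧸ i.range)), IsBlock e ∧ numWt p e = numWt p z ∧
      ∀ (A : Type) [Ring A] [Algebra k A] (B : Type) [Ring B] [Algebra k B],
        IsAlg k e A → IsAlg k z B → IsMoritaEquivalent k A B := by
  have h0 : (Nat.card S : k) ≠ 0 := fun h => hS ((CharP.cast_eq_zero_iff k p _).1 h)
  obtain ⟨m, i1, i2, ⟨M⟩⟩ := (good_of_nontrivial h0).exists_matBlock (isUnit_iff_ne_zero.2 h0)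
  obtain ⟨w, hw⟩ := (isUnit_iff_ne_zero.2 h0).exists_left_inv
  obtain ⟨u, hu⟩ := unit_kap (S := S) hi hw
  have hK : ¬ p ∣ Nat.card (kap (S := S) hi).ker := by
    intro h
    rw [(CharP.cast_eq_zero_iff k p _).2 h, mul_zero] at hu
    exact zero_ne_one hu
  have hb1 : IsBlock (lft u (kap hi) M.ε z) := lft_isBlock M (kap_surj hi) hu hz
  have ho1 : Orth (lft u (kap hi) M.ε z) := lft_orth M (sep_kap hi) z
  refine ⟨tr (lft u (kap hi) M.ε z), tr_isBlock hb1 ho1, ?_, ?_⟩
  · rw [numWt_tr p hb1.2.2.1 hb1.2.1 ho1]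
    let σ : G →* TT S i := ((SemidirectProduct.inr : H →* WX S i).comp i).codRestrict (TT S i)
      (fun g => ⟨g, rfl⟩)
    exact numWt_lft (kap_surj hi) hS hK M hu σ (fun g => kap_inr hi g _)
      (cj_of_central hz.2.2.1)
  · intro A _ _ B _ _ hA hB
    have h1 : IsAlg k (tr (lft u (kap hi) M.ε z))
        (Matrix (WX S i ⧸ TT S i) (WX S i ⧸ TT S i) (Matrix m m B)) :=
      tr_isAlg hb1.2.2.1 hb1.2.1 ho1 (lft_isAlg M (kap_surj hi) hu hB)
    obtain ⟨φ⟩ := isAlg_unique hA h1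
    exact IsMoritaEquivalent.trans k (IsMoritaEquivalent.of_algEquiv k φ) morita_mat.symm

include hS hi in
theorem awc_of_wr (h : AWC p k (Wr S H (H ⧸ i.range))) : AWC p k G := by
  intro z hz B _ _ hB
  obtain ⟨e, he, h1, h2⟩ := exists_block p k S hS i hi z hz
  obtain ⟨A, i1, i2, hA⟩ := exists_isAlg (Λ := k) he.2.2.1 he.2.1
  rw [← h1, ← h e he A hA]
  exact (numSim_of_morita (h2 A B hA hB)).symm

include hS in
theorem awc_alt (N : Set ℕ) (hN : N.Infinite) :
    (∀ (X : Type) [Group X] [Finite X], AWC p k X) ↔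
      ∀ n ∈ N, ∀ Γ : Subgroup (alternatingGroup (Fin n)),
        AWC p k (Wr S (alternatingGroup (Fin n)) (alternatingGroup (Fin n) ⧸ Γ)) := by
  refine ⟨fun h1 n _ Γ => h1 _, fun h1 G _ _ => ?_⟩
  obtain ⟨n, hn, hn2⟩ := hN.exists_gt (2 * Nat.card G)
  obtain ⟨i, hi⟩ := exists_alt G n hn2.le
  exact awc_of_wr p k S hS i hi (h1 n hn i.range)

end Pool.Agent.Helper18.AW
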