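import Pool.Agent.Helper18.AW.Zz

/-!
# Orthogonal families of idempotents permuted by a group
-/

set_option autoImplicit false
set_option linter.unusedSectionVars false

open scoped Classical
open MonoidAlgebra

noncomputable section

namespace Pool.Agent.Helper18.AW

open Pool.Agent.Helper18.BR

section alg

variable {Λ : Type} [CommRing Λ]

/-- the algebra which belongs to a central idempotent -/
theorem exists_isAlg {A : Type} [Ring A] [Algebra Λ A] {c : A} (hc : ∀ x, c * x = x * c)
    (hcc : c * c = c) : ∃ (B : Type) (_ : Ring B) (_ : Algebra Λ B), IsAlg Λ c B := by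
  let r : RingCon A :=
    { r := fun x y => c * x = c * y
      iseqv := ⟨fun _ => rfl, fun h => h.symm, fun h h' => h.trans h'⟩
      mul' := by
        intro x y z t h h'
        calc c * (x * z) = c * x * (c * z) := by
              rw [mul_assoc c x, ← mul_assoc x c, ← hc x, mul_assoc c x, ← mul_assoc c c, hcc]
          _ = c * y * (c * t) := by rw [h, h']
          _ = c * (y * t) := by
              rw [mul_assoc c y, ← mul_assoc y c, ← hc y, mul_assoc c y, ← mul_assoc c c, hcc]
      add' := by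
        intro x y z t h h'
        rw [mul_add, mul_add, h, h'] }
  refine ⟨r.Quotient, inferInstance, inferInstance, ?_⟩
  let π : A →ₐ[Λ] r.Quotient :=
    { r.mk' with
      commutes' := fun _ => rfl }
  refine ⟨π, fun y => Quotient.inductionOn' y fun x => ⟨x, rfl⟩, fun x => ?_⟩
  have h1 : π x = 0 ↔ c * x = c * 0 := (RingCon.eq r)
  rw [h1, mul_zero]

end alg

section tr

variable {Λ : Type} [CommRing Λ]

theorem zz_tr {X : Type} [Group X] [Finite X] {T : Subgroup X} {f : MonoidAlgebra Λ T}
    (hc : ∀ y, f * y = y * f) (he : f * f = f) (ho : Orth f) : zz (tr f) = zz f := by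
  obtain ⟨B, i1, i2, hB⟩ := exists_isAlg (Λ := Λ) hc he
  obtain ⟨Φ, h1, h2⟩ := tr_isAlg hc he ho hB
  obtain ⟨ρ, h3, h4⟩ := hB
  rw [zz_map Φ h1 h2 (tr_central hc) (tr_mul_tr hc he ho) (tr_mul_tr hc he ho),
    zz_map ρ h3 h4 hc he he, map_c Φ h2 (tr_mul_tr hc he ho), map_c ρ h4 he, zz_mat_one]

theorem zz_lft {Y S G m : Type} [Group Y] [Finite Y] [Group S] [Finite S] [Group G] [Finite G]
    [Fintype m] [Nonempty m] (M : MatBlock Λ S m) {u : Λ} {κ : Y →* S × G}
    (hκ : Function.Surjective κ) (hu : u * (Nat.card κ.ker : Λ) = 1) (z : MonoidAlgebra Λ G) :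
    zz (lft u κ M.ε z) = zz z := by
  unfold lft
  rw [zz_map (push κ) (push_surj hκ hu) (push_ker hκ hu) (infl_one_central hκ hu)
    (infl_one_mul hκ hu 1) (infl_one_mul hκ hu _), push_infl hκ hu]
  rw [zz_map (psi M.τ) (psi_surj M.surj) (psi_ker M.ker) (ten_one_central M.central)
    (ten_one_mul M.idem 1) (ten_one_mul M.idem z), psi_ten (IsAlg.one M.idem M.ker), zz_mat]

end tr

section fam

variable {k : Type} [Field k]

/-- different blocks are orthogonal -/
theorem block_orth {A : Type} [Ring A] {d d' : A} (h : IsBlock d) (h' : IsBlock d') (hne : d ≠ d') :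
    d * d' = 0 := by
  obtain ⟨h1, h2, h3, h4⟩ := h
  obtain ⟨h1', h2', h3', h4'⟩ := h'
  have k1 : d * d' * (d * d') = d * d' := by
    rw [mul_assoc, ← mul_assoc d', ← h3, mul_assoc d d', h2', ← mul_assoc, h2]
  have k2 : ∀ x, d * d' * x = x * (d * d') := by
    intro x
    rw [mul_assoc, h3', ← mul_assoc, h3, mul_assoc]
  rcases h4 (d * d') k1 k2 (by rw [← mul_assoc, h2]) with h | h
  · exact h
  · rcases h4' (d * d') k1 k2 (by rw [h3', mul_assoc, h2']) with h5 | h5
    · exact h5
    · exact absurd (h.symm.trans h5) hne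

/-- a finite-dimensional algebra has finitely many blocks -/
theorem finite_blocks (k : Type) [Field k] {A : Type} [Ring A] [Algebra k A]
    [FiniteDimensional k A] : Finite {d : A // IsBlock d} := by
  have h : LinearIndependent k (fun d : {d : A // IsBlock d} => d.1) := by
    rw [linearIndependent_iff']
    intro s g hg d hd
    have h1 := congrArg (fun x => d.1 * x) hg
    simp only [Finset.mul_sum, mul_zero] at h1
    rw [Finset.sum_eq_single d] at h1
    · rw [mul_smul_comm, d.2.2.1] at h1
      exact (smul_eq_zero.1 h1).resolve_right d.2.1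
    · intro b _ hb
      rw [mul_smul_comm, block_orth d.2 b.2 (fun h => hb (Subtype.ext h.symm)), smul_zero]
    · intro h
      exact absurd hd h
  exact h.finite

theorem zz_sum {A : Type} [Ring A] [Algebra k A] [FiniteDimensional k A] {ι : Type} [Fintype ι]
    (c : ι → A) (hc : ∀ i x, c i * x = x * c i) (h1 : ∀ i, c i * c i = c i)
    (h2 : ∀ i j, i ≠ j → c i * c j = 0) : zz (∑ i, c i) = ∑ i, zz (c i) := by
  unfold zz
  have := finite_blocks k (A := A)
  have hfin : ∀ i, Finite {d : A // IsBlock d ∧ SimpleAt d ∧ c i * d = d} := fun i =>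
    Finite.of_injective (fun d => (⟨d.1, d.2.1⟩ : {d : A // IsBlock d}))
      fun d d' h => Subtype.ext (congrArg (fun x => x.1) h)
  rw [← Nat.card_sigma]
  symm
  have hsum : ∀ i (d : A), c i * d = d → (∑ j, c j) * d = d := by
    intro i d hd
    rw [← hd, ← mul_assoc, Finset.sum_mul, Finset.sum_eq_single i, h1]
    · intro j _ hj
      exact h2 j i hj
    · intro h
      exact absurd (Finset.mem_univ _) h
  refine Nat.card_congr (Equiv.ofBijective
    (fun x : (i : ι) × {d : A // IsBlock d ∧ SimpleAt d ∧ c i * d = d} =>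
      (⟨x.2.1, x.2.2.1, x.2.2.2.1, hsum x.1 x.2.1 x.2.2.2.2⟩ :
        {d : A // IsBlock d ∧ SimpleAt d ∧ (∑ i, c i) * d = d})) ⟨?_, ?_⟩)
  · rintro ⟨i, d, hd⟩ ⟨j, d', hd'⟩ h
    have h3 : d = d' := congrArg (fun x => x.1) h
    subst h3
    have h4 : i = j := by
      by_contra hne
      apply hd.1.1
      rw [← hd.2.2, ← hd'.2.2, ← mul_assoc, h2 i j hne, zero_mul]
    subst h4
    rfl
  · rintro ⟨d, h3, h4, h5⟩
    have h6 : ∃ i, c i * d ≠ 0 := by
      by_contra hno
      push Not at hno
      apply h3.1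
      rw [← h5, Finset.sum_mul]
      exact Finset.sum_eq_zero fun i _ => hno i
    obtain ⟨i, hi⟩ := h6
    have h7 : c i * d = d := by
      rcases h3.2.2.2 (c i * d) (by
        rw [mul_assoc, ← mul_assoc d, ← hc i d, mul_assoc (c i) d, h3.2.1, ← mul_assoc, h1]) (by
        intro x
        rw [mul_assoc, h3.2.2.1, ← mul_assoc, hc, mul_assoc]) (by
        rw [← mul_assoc, ← hc, mul_assoc, h3.2.1]) with h | h
      · exact absurd h hi
      · exact h
    exact ⟨⟨i, d, h3, h4, h7⟩, rfl⟩

end fam

end Pool.Agent.Helper18.AW
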