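import Pool.Agent.Helper18.AW.Main

/-!
# Wreath products with an `H`-set: points and subsets

`H` acts on the finite set `Ω`, `i` is an embedding of `G` in `H`.
(1) `i(G)` is the stabilizer of the point `w₀`: the elements of `S ≀ H = S^Ω ⋊ H` over `i(G)` are mapped
onto `S × G`, the first component is the value at `w₀`.
(2) `S` is abelian and `i(G)` is the stabilizer of the subset `Δ`: the first component is the product of
the values on `Δ`.
-/

set_option autoImplicit false
set_option linter.unusedSectionVars false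

open scoped Classical
open MonoidAlgebra SemidirectProduct

noncomputable section

namespace Pool.Agent.Helper18.AW

open Pool.Agent.Helper18.BR

section gen

variable {S H G Ω : Type} [Group S] [Finite S] [Group H] [Finite H] [Group G] [Finite G]
  [MulAction H Ω] [Finite Ω] (i : G →* H)

/-- the elements over `i(G)` -/
def RT (S Ω : Type) [Group S] {H G : Type} [Group H] [Group G] [MulAction H Ω] (i : G →* H) :
    Subgroup (Wr S H Ω) := i.range.comap rightHom

theorem mem_RT (x : Wr S H Ω) : x ∈ RT S Ω i ↔ x.right ∈ i.range := Iff.rfl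

theorem arr_apply (h : H) (f : Ω → S) (w : Ω) : (mulAutArrow h f : Ω → S) w = f (h⁻¹ • w) := rfl

variable {i} (hi : Function.Injective i)

/-- the component in `G` -/
def rG (t : RT S Ω i) : G := (MonoidHom.ofInjective hi).symm ⟨t.1.right, t.2⟩

theorem i_rG (t : RT S Ω i) : i (rG hi t) = t.1.right := by
  have h := (MonoidHom.ofInjective hi).apply_symm_apply ⟨t.1.right, t.2⟩
  exact congrArg Subtype.val h

theorem rG_eq {t : RT S Ω i} {g : G} (h : t.1.right = i g) : rG hi t = g :=
  hi (by rw [i_rG, h])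

/-- the section on `G` -/
def rs (S Ω : Type) [Group S] {H G : Type} [Group H] [Group G] [MulAction H Ω] (i : G →* H) :
    G →* RT S Ω i :=
  ((SemidirectProduct.inr : H →* Wr S H Ω).comp i).codRestrict (RT S Ω i) (fun g => ⟨g, rfl⟩)

/-- the kernel of a homomorphism which determines the component in `G` -/
theorem ker_dvd {κ : RT S Ω i →* S × G} (hr : ∀ t, i (κ t).2 = t.1.right) :
    Nat.card κ.ker ∣ Nat.card S ^ Nat.card Ω := by
  rw [← Nat.card_fun]
  have hr : ∀ t ∈ κ.ker, t.1.right = 1 := by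
    intro t ht
    rw [← hr, MonoidHom.mem_ker.1 ht, Prod.snd_one, map_one]
  let f : κ.ker →* (Ω → S) :=
    { toFun := fun t => t.1.1.left
      map_one' := rfl
      map_mul' := fun t t' => by
        change (t.1.1 * t'.1.1).left = _
        rw [SemidirectProduct.mul_left, hr t.1 t.2, map_one]
        rfl }
  refine Subgroup.card_dvd_of_injective f ?_
  intro t t' h
  apply Subtype.ext
  apply Subtype.ext
  refine SemidirectProduct.ext h ?_
  rw [hr t.1 t.2, hr t'.1 t'.2]

/-- the conjugates of the elements which live at one point -/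
theorem conj_single (x : Wr S H Ω) (w : Ω) (s : S) :
    (x⁻¹ * inl (Pi.mulSingle w s) * x).right = 1 ∧
    ∀ v : Ω, x.right • v ≠ w → (x⁻¹ * inl (Pi.mulSingle w s) * x).left v = 1 := by
  have h1 : (x⁻¹ * inl (Pi.mulSingle w s) * x).left =
      mulAutArrow x.right⁻¹ (x.left⁻¹ * Pi.mulSingle w s * x.left) := by
    rw [SemidirectProduct.mul_left, SemidirectProduct.mul_left, SemidirectProduct.mul_right,
      SemidirectProduct.inv_left, SemidirectProduct.inv_right, left_inl, right_inl, mul_one,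
      map_mul, map_mul]
  refine ⟨?_, fun v hv => ?_⟩
  · rw [SemidirectProduct.mul_right, SemidirectProduct.mul_right, SemidirectProduct.inv_right,
      right_inl, mul_one, inv_mul_cancel]
  · rw [h1, arr_apply, inv_inv, Pi.mul_apply, Pi.mul_apply, Pi.mulSingle_eq_of_ne hv, mul_one,
      Pi.inv_apply, inv_mul_cancel]

end gen

section point

variable {S H G Ω : Type} [Group S] [Finite S] [Group H] [Finite H] [Group G] [Finite G]
  [MulAction H Ω] [Finite Ω] {i : G →* H} (hi : Function.Injective i) {w : Ω}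
  (hw : ∀ h : H, h • w = w ↔ h ∈ i.range)

/-- the homomorphism onto `S × G`, for a point -/
def pk : RT S Ω i →* S × G where
  toFun t := (t.1.left w, rG hi t)
  map_one' := Prod.ext rfl (rG_eq hi (g := 1) (map_one i).symm)
  map_mul' t t' := by
    refine Prod.ext ?_ ?_
    · change (t.1 * t'.1).left w = _
      rw [SemidirectProduct.mul_left, Pi.mul_apply, arr_apply,
        (hw _).2 (i.range.inv_mem ((mem_RT i _).1 t.2))]
      rfl
    · refine rG_eq hi ?_
      change (t.1 * t'.1).right = _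
      rw [SemidirectProduct.mul_right, Prod.snd_mul, map_mul, i_rG, i_rG]

theorem pk_eq {t : RT S Ω i} {s : S} {g : G} (h1 : t.1.left w = s)
    (h2 : t.1.right = i g) : pk hi hw t = (s, g) := Prod.ext h1 (rG_eq hi h2)

theorem pk_surj : Function.Surjective (pk (S := S) hi hw) := fun p =>
  ⟨⟨⟨fun _ => p.1, i p.2⟩, ⟨p.2, rfl⟩⟩, pk_eq hi hw rfl rfl⟩

theorem pk_ker_dvd : Nat.card (pk (S := S) hi hw).ker ∣ Nat.card S ^ Nat.card Ω :=
  ker_dvd fun t => i_rG hi t

theorem sep_pk : Sep (pk (S := S) hi hw) := by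
  intro x hx
  have key : ∀ s : S, ∃ h : x⁻¹ * inl (Pi.mulSingle w s) * x ∈ RT S Ω i,
      pk hi hw ⟨_, h⟩ = 1 := by
    intro s
    obtain ⟨h2, h1⟩ := conj_single x w s
    refine ⟨⟨1, (map_one i).trans h2.symm⟩, pk_eq hi hw ?_ (h2.trans (map_one i).symm)⟩
    exact h1 w fun h => hx ((hw _).1 h)
  choose h1 h2 using key
  refine ⟨fun s => ⟨inl (Pi.mulSingle w s), ⟨1, map_one i⟩⟩, fun s => ⟨_, h1 s⟩,
    fun s => ?_, fun s => ⟨h2 s, rfl⟩⟩
  exact pk_eq hi hw (Pi.mulSingle_eq_same (M := fun _ => S) w s) (map_one i).symm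

theorem pk_rs (g : G) : pk hi hw (rs S Ω i g) = (1, g) := pk_eq hi hw rfl rfl

end point

section subset

variable {S H G Ω : Type} [CommGroup S] [Finite S] [Group H] [Finite H] [Group G] [Finite G]
  [MulAction H Ω] [Finite Ω] {i : G →* H} (hi : Function.Injective i) {Δ : Set Ω}
  (hΔ : ∀ h : H, (∀ w, h • w ∈ Δ ↔ w ∈ Δ) ↔ h ∈ i.range) (hne : Δ.Nonempty)

/-- the permutation of `Δ` -/
def pe (h : H) (hh : h ∈ i.range) (hΔ : ∀ h : H, (∀ w, h • w ∈ Δ ↔ w ∈ Δ) ↔ h ∈ i.range) :
    Δ ≃ Δ where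
  toFun w := ⟨h • w.1, ((hΔ h).2 hh w.1).2 w.2⟩
  invFun w := ⟨h⁻¹ • w.1, ((hΔ h⁻¹).2 (i.range.inv_mem hh) w.1).2 w.2⟩
  left_inv w := Subtype.ext (inv_smul_smul h w.1)
  right_inv w := Subtype.ext (smul_inv_smul h w.1)

/-- the homomorphism onto `S × G`, for a subset -/
def rk : RT S Ω i →* S × G where
  toFun t := (∏ᶠ w : Δ, t.1.left w.1, rG hi t)
  map_one' := by
    refine Prod.ext ?_ ?_
    · change ∏ᶠ _ : Δ, (1 : S) = 1
      exact finprod_one
    · exact rG_eq hi (g := 1) (map_one i).symm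
  map_mul' t t' := by
    refine Prod.ext ?_ ?_
    · change ∏ᶠ w : Δ, (t.1 * t'.1).left w.1 = (∏ᶠ w : Δ, t.1.left w.1) *
        ∏ᶠ w : Δ, t'.1.left w.1
      have h1 : ∀ w : Δ, (t.1 * t'.1).left w.1 =
          t.1.left w.1 * t'.1.left (pe t.1.right⁻¹ (i.range.inv_mem t.2) hΔ w).1 := by
        intro w
        rw [SemidirectProduct.mul_left, Pi.mul_apply, arr_apply]
        rfl
      rw [finprod_congr h1, finprod_mul_distrib (Set.toFinite _) (Set.toFinite _)]
      congr 1
      exact finprod_comp_equiv (pe t.1.right⁻¹ (i.range.inv_mem t.2) hΔ)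
        (f := fun w : Δ => t'.1.left w.1)
    · refine rG_eq hi ?_
      change (t.1 * t'.1).right = _
      rw [SemidirectProduct.mul_right, Prod.snd_mul, map_mul, i_rG, i_rG]

theorem rk_eq {t : RT S Ω i} {s : S} {g : G} (h1 : ∏ᶠ w : Δ, t.1.left w.1 = s)
    (h2 : t.1.right = i g) : rk hi hΔ t = (s, g) := Prod.ext h1 (rG_eq hi h2)

theorem prod_single (s : S) {w : Ω} (hw : w ∈ Δ) :
    ∏ᶠ v : Δ, (Pi.mulSingle w s : Ω → S) v.1 = s := by
  rw [finprod_eq_single _ (⟨w, hw⟩ : Δ)]
  · exact Pi.mulSingle_eq_same (M := fun _ => S) w s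
  · intro v hv
    refine Pi.mulSingle_eq_of_ne (M := fun _ => S) ?_ s
    intro h
    exact hv (Subtype.ext h)

include hne in
theorem rk_surj : Function.Surjective (rk (S := S) hi hΔ) := fun p => by
  obtain ⟨w, hw⟩ := hne
  exact ⟨⟨⟨Pi.mulSingle w p.1, i p.2⟩, ⟨p.2, rfl⟩⟩, rk_eq hi hΔ (prod_single p.1 hw) rfl⟩

theorem rk_ker_dvd : Nat.card (rk (S := S) hi hΔ).ker ∣ Nat.card S ^ Nat.card Ω :=
  ker_dvd fun t => i_rG hi t

theorem sep_rk : Sep (rk (S := S) hi hΔ) := by
  intro x hx
  obtain ⟨w, hw, hw'⟩ : ∃ w ∈ Δ, x.right⁻¹ • w ∉ Δ := by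
    by_contra hno
    push Not at hno
    apply hx
    rw [mem_RT, ← hΔ]
    -- the map `Δ → Δ` is injective, so surjective
    let f : Δ → Δ := fun w => ⟨x.right⁻¹ • w.1, hno w.1 w.2⟩
    have hf : Function.Injective f := by
      intro a b hab
      have : x.right⁻¹ • a.1 = x.right⁻¹ • b.1 := congrArg Subtype.val hab
      exact Subtype.ext (smul_left_cancel _ this)
    have hf' : Function.Surjective f := Finite.surjective_of_injective hf
    intro w
    constructor
    · intro h
      have := hno _ h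
      rwa [inv_smul_smul] at this
    · intro h
      obtain ⟨v, hv⟩ := hf' ⟨w, h⟩
      have h1 : x.right⁻¹ • v.1 = w := congrArg Subtype.val hv
      rw [← h1, smul_inv_smul]
      exact v.2
  have key : ∀ s : S, ∃ h : x⁻¹ * inl (Pi.mulSingle w s) * x ∈ RT S Ω i,
      rk hi hΔ ⟨_, h⟩ = 1 := by
    intro s
    obtain ⟨h2, h1⟩ := conj_single x w s
    refine ⟨⟨1, (map_one i).trans h2.symm⟩, rk_eq hi hΔ ?_ (h2.trans (map_one i).symm)⟩
    refine (finprod_congr fun v => ?_).trans finprod_one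
    refine h1 v.1 fun h => hw' ?_
    rw [← h, inv_smul_smul]
    exact v.2
  choose h1 h2 using key
  refine ⟨fun s => ⟨inl (Pi.mulSingle w s), ⟨1, map_one i⟩⟩, fun s => ⟨_, h1 s⟩,
    fun s => ?_, fun s => ⟨h2 s, rfl⟩⟩
  exact rk_eq hi hΔ (prod_single s hw) (map_one i).symm

theorem rk_rs (g : G) : rk hi hΔ (rs S Ω i g) = (1, g) :=
  rk_eq hi hΔ (by
    change ∏ᶠ _ : Δ, (1 : S) = 1
    exact finprod_one) rfl

end subset

section regular

variable {H G : Type} [Group H] [Group G] {i : G →* H}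

/-- in the regular action `i(G)` is the stabilizer of the subset `i(G)` -/
theorem regular_stab (h : H) : (∀ w : H, h • w ∈ (i.range : Set H) ↔ w ∈ (i.range : Set H)) ↔
    h ∈ i.range := by
  constructor
  · intro hh
    have h1 := (hh 1).2 i.range.one_mem
    rwa [smul_eq_mul, mul_one] at h1
  · intro hh w
    rw [smul_eq_mul]
    exact i.range.mul_mem_cancel_left hh

theorem range_nonempty : ((i.range : Set H)).Nonempty := ⟨1, i.range.one_mem⟩

end regular

end Pool.Agent.Helper18.AW
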