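import Pool.Agent.Helper18.AW.Bq

/-!
# Weights and stabilizers
-/

set_option autoImplicit false
set_option linter.unusedSectionVars false

open scoped Classical
open MonoidAlgebra

noncomputable section

namespace Pool.Agent.Helper18.AW

open Pool.Agent.Helper18.BR

section coset

variable {k : Type} [CommRing k] {X : Type} [Group X] [Finite X] {T : Subgroup X}

theorem smul_eq_mk (x : X) (q : X ⧸ T) : x • q = QuotientGroup.mk (x * rp q) := by
  conv_lhs => rw [← QuotientGroup.out_eq' q]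
  rfl

/-- conjugation with the representative of the coset `q` -/
def jq (q : X ⧸ T) : T →* X := (MulAut.conj (rp q)).toMonoidHom.comp T.subtype

theorem jq_apply (q : X ⧸ T) (t : T) : jq q t = rp q * t * (rp q)⁻¹ := rfl

theorem jq_inj (q : X ⧸ T) : Function.Injective (jq q) :=
  (MulAut.conj (rp q)).injective.comp T.subtype_injective

theorem mem_range_jq {q : X ⧸ T} {x : X} : x ∈ (jq q).range ↔ x • q = q := by
  have h0 : x • q = q ↔ (rp q)⁻¹ * x * rp q ∈ T := by
    rw [smul_eq_mk]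
    conv_lhs => rhs; rw [← QuotientGroup.out_eq' q]
    rw [eq_comm, QuotientGroup.eq, mul_assoc]
  rw [h0]
  constructor
  · rintro ⟨t, rfl⟩
    rw [jq_apply]
    have : (rp q)⁻¹ * (rp q * t * (rp q)⁻¹) * rp q = (t : X) := by group
    rw [this]
    exact t.2
  · intro h
    refine ⟨⟨_, h⟩, ?_⟩
    rw [jq_apply]
    group

/-- the conjugate of `e` which belongs to the coset `q` -/
def cf (e : MonoidAlgebra k T) (q : X ⧸ T) : MonoidAlgebra k X := cj (rp q) (inc T e)

theorem cf_eq (e : MonoidAlgebra k T) (q : X ⧸ T) : cf e q = push (jq q) e :=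
  cj_push (rp q) T.subtype e

theorem tr_eq_sum (e : MonoidAlgebra k T) : tr e = ∑ q : X ⧸ T, cf e q := rfl

variable {e : MonoidAlgebra k T} (hc : ∀ y, e * y = y * e)

include hc in
theorem cj_cf (x : X) (q : X ⧸ T) : cj x (cf e q) = cf e (x • q) := by
  unfold cf
  rw [smul_eq_mk, cj_rp_mk hc, cj_mul]

theorem cf_idem (he : e * e = e) (q : X ⧸ T) : cf e q * cf e q = cf e q := by
  unfold cf
  rw [← cj_hom, ← map_mul, he]

theorem cf_orth (ho : Orth e) {q r : X ⧸ T} (h : q ≠ r) : cf e q * cf e r = 0 := by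
  unfold cf
  have h1 : cj (rp r) (inc T e) = cj (rp q) (cj ((rp q)⁻¹ * rp r) (inc T e)) := by
    rw [← cj_mul, mul_inv_cancel_left]
  rw [h1, ← cj_hom, inc_mul_cj ho (fun h2 => h (rp_inj h2))]
  unfold cj
  rw [mul_zero, zero_mul]

end coset

section fix

variable {X : Type} [Group X] [Finite X] (T Q : Subgroup X)

/-- the cosets of `T` fixed by `Q` -/
abbrev Fx : Type := {q : X ⧸ T // ∀ y ∈ Q, y • q = q}

instance actN : MulAction (Nm Q) (Fx T Q) where
  smul n q := ⟨(n : X) • q.1, fun y hy => by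
    have h1 : (n : X)⁻¹ * y * n ∈ Q := by
      have := (Subgroup.mem_normalizer_iff.1 ((Nm Q).inv_mem n.2) y).1 hy
      rwa [inv_inv] at this
    have h2 := q.2 _ h1
    rw [smul_smul]
    have h3 : y * (n : X) = n * ((n : X)⁻¹ * y * n) := by group
    rw [h3, ← smul_smul, h2]⟩
  one_smul q := Subtype.ext (one_smul X q.1)
  mul_smul n m q := Subtype.ext (mul_smul (n : X) (m : X) q.1)

theorem actN_coe (n : Nm Q) (q : Fx T Q) : ((n • q : Fx T Q) : X ⧸ T) = (n : X) • q.1 := rfl

instance actQ : MulAction (Nm Q ⧸ Q.subgroupOf (Nm Q)) (Fx T Q) :=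
  MulAction.compHom _ (QuotientGroup.lift (Q.subgroupOf (Nm Q))
    (MulAction.toPermHom (Nm Q) (Fx T Q)) (fun n hn => by
      rw [Subgroup.mem_subgroupOf] at hn
      ext q
      exact q.2 _ hn))

theorem actQ_mk (n : Nm Q) (q : Fx T Q) : pr Q n • q = n • q := rfl

variable {T Q}

theorem le_range (q : Fx T Q) : Q ≤ (jq q.1).range := fun _ hy => mem_range_jq.2 (q.2 _ hy)

/-- the group `Y = N(Q)/Q` -/
abbrev YQ (Q : Subgroup X) : Type := Nm Q ⧸ Q.subgroupOf (Nm Q)

theorem mem_stabQ {q : Fx T Q} {n : Nm Q} :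
    pr Q n ∈ MulAction.stabilizer (YQ Q) q ↔ (n : X) ∈ (jq q.1).range := by
  rw [MulAction.mem_stabilizer_iff, mem_range_jq, actQ_mk]
  constructor
  · intro h
    exact congrArg Subtype.val h
  · intro h
    exact Subtype.ext h

/-- the homomorphism onto the stabilizer -/
def ph (q : Fx T Q) : Nm (Q.comap (jq q.1)) →* MulAction.stabilizer (YQ Q) q where
  toFun t := ⟨pr Q (nj (jq q.1) (le_range q) t), mem_stabQ.2 ⟨t.1, rfl⟩⟩
  map_one' := by
    apply Subtype.ext
    change pr Q (nj (jq q.1) (le_range q) 1) = 1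
    rw [map_one, map_one]
  map_mul' t t' := by
    apply Subtype.ext
    change pr Q (nj (jq q.1) (le_range q) (t * t')) = _
    rw [map_mul, map_mul]
    rfl

theorem ph_surj (q : Fx T Q) : Function.Surjective (ph q) := by
  rintro ⟨y, hy⟩
  obtain ⟨n, rfl⟩ := QuotientGroup.mk'_surjective _ y
  obtain ⟨t, ht⟩ := mem_stabQ.1 hy
  refine ⟨⟨t, mem_nm_of _ (by rw [ht]; exact n.2)⟩, ?_⟩
  apply Subtype.ext
  change pr Q _ = pr Q n
  congr 1
  exact Subtype.ext ht

theorem ph_ker (q : Fx T Q) : (ph q).ker = (Q.comap (jq q.1)).subgroupOf (Nm _) := by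
  rw [← ker_nj (jq q.1) (le_range q)]
  ext t
  rw [MonoidHom.mem_ker, MonoidHom.mem_ker]
  constructor
  · intro h
    exact congrArg Subtype.val h
  · intro h
    exact Subtype.ext h

theorem card_comap_jq (q : Fx T Q) : Nat.card (Q.comap (jq q.1)) = Nat.card Q := by
  rw [← Subgroup.card_map_of_injective (jq_inj q.1), Subgroup.map_comap_eq_self (le_range q)]

theorem card_nm {A : Type} [Group A] [Finite A] (R : Subgroup A) :
    Nat.card (Nm R) = Nat.card (YQ R) * Nat.card R := by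
  rw [Subgroup.card_eq_card_quotient_mul_card_subgroup (R.subgroupOf (Nm R))]
  congr 1
  exact Nat.card_congr (Subgroup.subgroupOfEquivOfLe Subgroup.le_normalizer).toEquiv

theorem card_ph (q : Fx T Q) : Nat.card (Nm (Q.comap (jq q.1))) =
    Nat.card (MulAction.stabilizer (YQ Q) q) * Nat.card Q := by
  have h1 : Nat.card (YQ (Q.comap (jq q.1))) = Nat.card (MulAction.stabilizer (YQ Q) q) := by
    exact Nat.card_congr ((QuotientGroup.quotientMulEquivOfEq (ph_ker q).symm).trans
      (QuotientGroup.quotientKerEquivOfSurjective _ (ph_surj q))).toEquiv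
  rw [card_nm, h1, card_comap_jq]

end fix

section main

variable {k : Type} [Field k] (p : ℕ) [Fact p.Prime] [CharP k p] {X : Type} [Group X] [Finite X]
  {T : Subgroup X} {e : MonoidAlgebra k T} (hc : ∀ y, e * y = y * e) (he : e * e = e)
  (ho : Orth e)

theorem bc_sum {ι : Type} (Q : Subgroup X) (s : Finset ι) (a : ι → MonoidAlgebra k X) :
    bc Q (∑ i ∈ s, a i) = ∑ i ∈ s, bc Q (a i) := by
  induction s using Finset.induction_on with
  | empty => rw [Finset.sum_empty, Finset.sum_empty, bc_zero]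
  | insert i s hi ih => rw [Finset.sum_insert hi, Finset.sum_insert hi, bc_add, ih]

theorem cj_bc {Q : Subgroup X} (n : Nm Q) (a : MonoidAlgebra k X) :
    cj n (bc Q a) = bc Q (cj (n : X) a) := by
  ext m
  rw [cj_coeff, bc_coeff, bc_coeff, cj_coeff]
  have h : ((n⁻¹ * m * n : Nm Q) : X) ∈ Subgroup.centralizer (Q : Set X) ↔
      (m : X) ∈ Subgroup.centralizer (Q : Set X) := by
    rw [Subgroup.mem_centralizer_iff, Subgroup.mem_centralizer_iff]
    push_cast
    constructor
    · intro h y hy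
      have h1 : (n : X)⁻¹ * y * n ∈ Q := by
        have := (Subgroup.mem_normalizer_iff.1 ((Nm Q).inv_mem n.2) y).1 hy
        rwa [inv_inv] at this
      have h2 := h _ h1
      have h3 := congrArg (fun z => (n : X) * z * (n : X)⁻¹) h2
      simp only [mul_assoc, mul_inv_cancel_left, mul_inv_cancel, mul_one] at h3
      exact h3
    · intro h y hy
      have h1 : (n : X) * y * (n : X)⁻¹ ∈ Q := (Subgroup.mem_normalizer_iff.1 n.2 y).1 hy
      have h2 := h _ h1
      have h3 := congrArg (fun z => (n : X)⁻¹ * z * (n : X)) h2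
      simp only [mul_assoc, inv_mul_cancel, mul_one, inv_mul_cancel_left] at h3
      simp only [mul_assoc]
      exact h3
  simp only [h]
  rfl

include hc in
theorem bc_tr {Q : Subgroup X} (hQ : IsPGroup p Q) [Fintype (Fx T Q)] :
    bc Q (tr e) = ∑ q : Fx T Q, bc Q (cf e q.1) := by
  ext n
  rw [coeff_sum, Finset.sum_apply', bc_coeff]
  split_ifs with hn
  · rw [tr_eq_sum, coeff_sum, Finset.sum_apply',
      sum_fixed p hQ (fun q : X ⧸ T => (cf e q).coeff (n : X)) ?_]
    · rw [Finset.sum_congr rfl fun (q : Fx T Q) _ => by rw [bc_coeff, if_pos hn]]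
      refine Finset.sum_subtype _ (fun q => ?_) (fun q : X ⧸ T => (cf e q).coeff (n : X))
      rw [Finset.mem_filter]
      constructor
      · rintro ⟨_, h⟩ y hy
        exact h ⟨y, hy⟩
      · intro h
        exact ⟨Finset.mem_univ _, fun d => h d.1 d.2⟩
    · intro d q
      have h1 : cf e (d • q) = cj (d : X) (cf e q) := (cj_cf hc _ _).symm
      rw [h1, cj_coeff]
      congr 1
      rw [Subgroup.mem_centralizer_iff] at hn
      rw [mul_assoc, ← hn d.1 d.2, inv_mul_cancel_left]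
  · symm
    refine Finset.sum_eq_zero fun q _ => ?_
    rw [bc_coeff, if_neg hn]

include hc he ho in
theorem card_mul_zz_tr (Q : PSub p X) [Fintype (Fx T Q.1)] :
    Nat.card (Nm Q.1) * zz (brq Q.1 (tr e)) =
      ∑ q : Fx T Q.1, Nat.card (Nm (Q.1.comap (jq q.1))) * zz (brq (Q.1.comap (jq q.1)) e) := by
  have hinv : ∀ (q : Fx T Q.1), ∀ y ∈ Q.1, cj y (cf e q.1) = cf e q.1 := by
    intro q y hy
    rw [cj_cf hc, q.2 y hy]
  have hg : ∀ q : Fx T Q.1, inc (MulAction.stabilizer (YQ Q.1) q)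
      (push (ph q) (bc (Q.1.comap (jq q.1)) e)) = push (pr Q.1) (bc Q.1 (cf e q.1)) := by
    intro q
    rw [cf_eq, bc_push (le_range q) (jq_inj q.1), push_push]
    exact push_push (ph q) (MulAction.stabilizer (YQ Q.1) q).subtype _
  have h1 := zz_orbits (k := k) (Y := YQ Q.1) (P := Fx T Q.1)
    (fun q => push (pr Q.1) (bc Q.1 (cf e q.1)))
    (fun q => push (ph q) (bc (Q.1.comap (jq q.1)) e)) hg
    (fun y q => by
      obtain ⟨n, rfl⟩ := QuotientGroup.mk'_surjective _ y
      change cj (pr Q.1 n) _ = push (pr Q.1) (bc Q.1 (cf e ((n : X) • q.1)))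
      rw [← push_cj, cj_bc, cj_cf hc])
    (fun q => by
      rw [← map_mul, ← bc_mul p Q.2 (hinv q) (hinv q), cf_idem he])
    (fun q r hqr => by
      rw [← map_mul, ← bc_mul p Q.2 (hinv q) (hinv r),
        cf_orth ho (fun h => hqr (Subtype.ext h)), bc_zero, map_zero])
  have h2 : brq Q.1 (tr e) = ∑ q : Fx T Q.1, push (pr Q.1) (bc Q.1 (cf e q.1)) := by
    rw [brq_eq, bc_tr p hc Q.2, map_sum]
  have h3 : ∀ q : Fx T Q.1, zz (brq (Q.1.comap (jq q.1)) e) =
      zz (push (ph q) (bc (Q.1.comap (jq q.1)) e)) := by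
    intro q
    rw [brq_eq]
    refine zz_push_congr (QuotientGroup.mk'_surjective _) (ph_surj q) ?_ _
    rw [ph_ker, QuotientGroup.ker_mk']
  calc Nat.card (Nm Q.1) * zz (brq Q.1 (tr e))
      = Nat.card Q.1 * (Nat.card (YQ Q.1) * zz (brq Q.1 (tr e))) := by
        rw [card_nm]
        ring
    _ = _ := by
        rw [h2, h1, Finset.mul_sum]
        refine Finset.sum_congr rfl fun q _ => ?_
        rw [card_ph, h3]
        ring

/-- pairs of a `p`-subgroup and a fixed coset -/
def pairEquiv : (Σ Q : PSub p X, Fx T Q.1) ≃ (X ⧸ T) × PSub p T where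
  toFun a := (a.2.1, ⟨a.1.1.comap (jq a.2.1), a.1.2.comap_of_injective _ (jq_inj a.2.1)⟩)
  invFun b := ⟨⟨b.2.1.map (jq b.1), b.2.2.map _⟩, ⟨b.1, by
    rintro y ⟨t, _, rfl⟩
    exact mem_range_jq.1 ⟨t, rfl⟩⟩⟩
  left_inv a := by
    obtain ⟨⟨Q, hQ⟩, ⟨q, hq⟩⟩ := a
    have h1 : (Q.comap (jq q)).map (jq q) = Q :=
      Subgroup.map_comap_eq_self (le_range ⟨q, hq⟩)
    have h2 : ∀ (Q' : Subgroup X) (h : Q' = Q) (a' : IsPGroup p Q') (b' : ∀ y ∈ Q', y • q = q),
        (⟨⟨Q', a'⟩, ⟨q, b'⟩⟩ : Σ Q : PSub p X, Fx T Q.1) = ⟨⟨Q, hQ⟩, ⟨q, hq⟩⟩ := by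
      rintro Q' rfl a' b'
      rfl
    exact h2 _ h1 _ _
  right_inv b := by
    obtain ⟨q, ⟨R, hR⟩⟩ := b
    refine Prod.ext rfl (Subtype.ext ?_)
    exact Subgroup.comap_map_eq_self_of_injective (jq_inj q) R

include hc he ho in
theorem numWt_tr : numWt p (tr e) = numWt p e := by
  have : Fintype (PSub p X) := Fintype.ofFinite _
  have : Fintype (PSub p T) := Fintype.ofFinite _
  have : ∀ Q : PSub p X, Fintype (Fx T Q.1) := fun Q => Fintype.ofFinite _
  have h1 := card_mul_numWt p (cj_tr (X := X) hc)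
  have h2 := card_mul_numWt p (cj_of_central hc)
  have h3 : Nat.card X * numWt p (tr e) = Nat.card X * numWt p e := by
    have h4 : ∑ Q : PSub p X, ∑ q : Fx T Q.1, Nat.card (Nm (Q.1.comap (jq q.1))) *
        zz (brq (Q.1.comap (jq q.1)) e) = ∑ _q : X ⧸ T, ∑ R : PSub p T,
          Nat.card (Nm R.1) * zz (brq R.1 e) := by
      rw [← Fintype.sum_sigma', ← Fintype.sum_prod_type']
      exact Fintype.sum_equiv (pairEquiv p) _ _ fun a => rfl
    rw [h1, Finset.sum_congr rfl fun Q _ => card_mul_zz_tr p hc he ho Q, h4, ← h2,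
      Finset.sum_const, Finset.card_univ, smul_eq_mul, ← Nat.card_eq_fintype_card, ← mul_assoc,
      ← Subgroup.card_eq_card_quotient_mul_card_subgroup]
  exact Nat.eq_of_mul_eq_mul_left Nat.card_pos h3

end main

end Pool.Agent.Helper18.AW
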