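import Pool.Agent.Helper18.BR.Fin2
import Pool.Agent.Helper18.AW.Defs

/-!
# The number of blocks with simple block algebra
-/

set_option autoImplicit false
set_option linter.unusedSectionVars false

open scoped Classical

noncomputable section

namespace Pool.Agent.Helper18.AW

open Pool.Agent.Helper18.BR

variable {Λ : Type} [CommRing Λ]

section transport

variable {A B : Type} [Ring A] [Algebra Λ A] [Ring B] [Algebra Λ B] (π : A →ₐ[Λ] B)

theorem map_c {c : A} (hk : ∀ x, π x = 0 ↔ c * x = 0) (hcc : c * c = c) : π c = 1 :=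
  IsAlg.one hcc hk

theorem eq_of_map {c x y : A} (hk : ∀ x, π x = 0 ↔ c * x = 0) (hx : c * x = x) (hy : c * y = y)
    (h : π x = π y) : x = y := by
  have h1 : π (x - y) = 0 := by rw [map_sub, h, sub_self]
  rw [hk, mul_sub, hx, hy, sub_eq_zero] at h1
  exact h1

theorem isBlock_map (hs : Function.Surjective π) {c e : A} (hk : ∀ x, π x = 0 ↔ c * x = 0)
    (hc : ∀ x, c * x = x * c) (hcc : c * c = c) (hce : c * e = e) (he : IsBlock e) :
    IsBlock (π e) := by
  obtain ⟨h1, h2, h3, h4⟩ := he
  refine ⟨fun h => h1 ?_, by rw [← map_mul, h2], fun y => ?_, fun f hf1 hf2 hf3 => ?_⟩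
  · rw [hk, hce] at h
    exact h
  · obtain ⟨x, rfl⟩ := hs y
    rw [← map_mul, h3, map_mul]
  · obtain ⟨g, rfl⟩ := hs f
    have hg : π (c * g) = π g := by rw [map_mul, map_c π hk hcc, one_mul]
    have hcg : c * (c * g) = c * g := by rw [← mul_assoc, hcc]
    have k1 : (c * g) * (c * g) = c * g := by
      refine eq_of_map π hk (by rw [← mul_assoc, hcg]) hcg ?_
      rw [map_mul, hg, hf1]
    have k2 : ∀ x, (c * g) * x = x * (c * g) := by
      intro x
      refine eq_of_map π hk (by rw [← mul_assoc, hcg]) ?_ ?_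
      · rw [← mul_assoc, hc x, mul_assoc, hcg]
      · rw [map_mul, hg, hf2, map_mul, hg]
    have k3 : e * (c * g) = c * g := by
      refine eq_of_map π hk (by rw [← mul_assoc, hce]) hcg ?_
      rw [map_mul, hg, hf3]
    rcases h4 (c * g) k1 k2 k3 with h | h
    · left
      rw [← hg, h, map_zero]
    · right
      rw [← hg, h]

theorem simpleAt_map (hs : Function.Surjective π) {e : A} (h : SimpleAt e) :
    SimpleAt (π e) := by
  intro y hy
  obtain ⟨x, rfl⟩ := hs y
  obtain ⟨ι, i1, a, b, hab⟩ := h x (fun h0 => hy (by rw [← map_mul, h0, map_zero]))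
  refine ⟨ι, i1, fun i => π (a i), fun i => π (b i), ?_⟩
  conv_rhs => rw [← hab]
  rw [map_sum]
  exact Finset.sum_congr rfl fun i _ => by rw [map_mul, map_mul, map_mul]

theorem simpleAt_of_map (hs : Function.Surjective π) {c e : A} (hk : ∀ x, π x = 0 ↔ c * x = 0)
    (hcc : c * c = c) (hce : c * e = e) (h : SimpleAt (π e)) :
    SimpleAt e := by
  intro x hx
  have h1 : π e * π x ≠ 0 := by
    rw [← map_mul, Ne, hk, ← mul_assoc, hce]
    exact hx
  obtain ⟨ι, i1, a, b, hab⟩ := h (π x) h1
  choose a' ha' using fun i => hs (a i)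
  choose b' hb' using fun i => hs (b i)
  refine ⟨ι, i1, fun i => c * a' i, b', ?_⟩
  refine eq_of_map π hk ?_ hce ?_
  · rw [Finset.mul_sum]
    refine Finset.sum_congr rfl fun i _ => ?_
    have h2 : c * (c * a' i) = c * a' i := by rw [← mul_assoc, hcc]
    calc c * (c * a' i * (e * x) * b' i) = c * (c * a' i) * (e * x) * b' i := by
          simp only [mul_assoc]
      _ = _ := by rw [h2]
  · rw [← hab, map_sum]
    refine Finset.sum_congr rfl fun i _ => ?_
    rw [map_mul, map_mul, map_mul, map_mul, map_c π hk hcc, one_mul, ha', hb']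

theorem zz_map (hs : Function.Surjective π) {c e : A} (hk : ∀ x, π x = 0 ↔ c * x = 0)
    (hc : ∀ x, c * x = x * c) (hcc : c * c = c) (hce : c * e = e) : zz e = zz (π e) := by
  unfold zz
  have hcd : ∀ d : A, e * d = d → c * d = d := by
    intro d hd
    rw [← hd, ← mul_assoc, hce]
  refine Nat.card_congr (Equiv.ofBijective
    (fun d : {d : A // IsBlock d ∧ SimpleAt d ∧ e * d = d} =>
      (⟨π d.1, isBlock_map π hs hk hc hcc (hcd _ d.2.2.2) d.2.1,
        simpleAt_map π hs d.2.2.1, by rw [← map_mul, d.2.2.2]⟩ :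
        {d : B // IsBlock d ∧ SimpleAt d ∧ π e * d = d})) ⟨?_, ?_⟩)
  · intro d d' h
    exact Subtype.ext (eq_of_map π hk (hcd _ d.2.2.2) (hcd _ d'.2.2.2) (congrArg Subtype.val h))
  · rintro ⟨d', h1, h2, h3⟩
    obtain ⟨x, rfl⟩ := hs d'
    have hg : π (c * x) = π x := by rw [map_mul, map_c π hk hcc, one_mul]
    have hcg : c * (c * x) = c * x := by rw [← mul_assoc, hcc]
    refine ⟨⟨c * x, ?_, ?_, ?_⟩, Subtype.ext hg⟩
    · exact isBlock_of_map π hs hk hc hcg (by rw [hg]; exact h1)
    · exact simpleAt_of_map π hs hk hcc hcg (by rw [hg]; exact h2)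
    · refine eq_of_map π hk (by rw [← mul_assoc, hce]) hcg ?_
      rw [map_mul, hg, h3]

/-- invariance under isomorphisms -/
theorem zz_equiv (φ : A ≃ₐ[Λ] B) (e : A) : zz e = zz (φ e) := by
  refine zz_map (φ : A →ₐ[Λ] B) φ.surjective (c := 1) (fun x => ?_) (fun x => ?_) (mul_one 1)
    (one_mul e)
  · rw [one_mul]
    exact map_eq_zero_iff φ φ.injective
  · rw [one_mul, mul_one]

end transport

section matrix

variable {B : Type} [Ring B] {n : Type} [Fintype n] [Nonempty n]

theorem scalar_inj : Function.Injective (Matrix.scalar n : B →+* Matrix n n B) := by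
  intro x y hxy
  obtain ⟨i₀⟩ := ‹Nonempty n›
  have := congrFun (congrFun hxy i₀) i₀
  rwa [Matrix.scalar_apply, Matrix.scalar_apply, Matrix.diagonal_apply_eq,
    Matrix.diagonal_apply_eq] at this

theorem isBlock_of_scalar {e : B} (h : IsBlock (Matrix.scalar n e)) : IsBlock e := by
  obtain ⟨h1, h2, h3, h4⟩ := h
  refine ⟨fun h => h1 (by rw [h, map_zero]), scalar_inj (n := n) (by rw [map_mul, h2]),
    fun x => ?_, fun f hf1 hf2 hf3 => ?_⟩
  · exact scalar_inj (n := n) (by rw [map_mul, h3, map_mul])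
  · rcases h4 (Matrix.scalar n f) (by rw [← map_mul, hf1]) (scalar_central hf2)
      (by rw [← map_mul, hf3]) with h | h
    · left
      exact scalar_inj (n := n) (by rw [h, map_zero])
    · right
      exact scalar_inj h

theorem simpleAt_scalar {d : B} (h : SimpleAt d) : SimpleAt (Matrix.scalar n d) := by
  intro M hM
  obtain ⟨i, j, hij⟩ : ∃ i j, d * M i j ≠ 0 := by
    by_contra hno
    push Not at hno
    apply hM
    ext i j
    rw [Matrix.scalar_apply, Matrix.diagonal_mul, hno, Matrix.zero_apply]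
  obtain ⟨ι, i1, a, b, hab⟩ := h (M i j) hij
  refine ⟨ι × n, inferInstance, fun t => Matrix.single t.2 i (a t.1),
    fun t => Matrix.single j t.2 (b t.1), ?_⟩
  ext r s
  rw [Matrix.sum_apply, Fintype.sum_prod_type]
  have h1 : ∀ t : ι, ∑ k : n, (Matrix.single k i (a t) * (Matrix.scalar n d * M) *
      Matrix.single j k (b t)) r s = if r = s then a t * (d * M i j) * b t else 0 := by
    intro t
    by_cases hrs : r = s
    · subst hrs
      rw [if_pos rfl, Finset.sum_eq_single r]
      · rw [Matrix.mul_single_apply_same, Matrix.single_mul_apply_same, Matrix.scalar_apply,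
          Matrix.diagonal_mul]
      · intro k _ hk
        rw [Matrix.mul_single_apply_of_ne (hbj := Ne.symm hk)]
      · intro h
        exact absurd (Finset.mem_univ _) h
    · rw [if_neg hrs]
      refine Finset.sum_eq_zero fun k _ => ?_
      by_cases hk : k = s
      · subst hk
        rw [Matrix.mul_single_apply_same, Matrix.single_mul_apply_of_ne (h := hrs), zero_mul]
      · rw [Matrix.mul_single_apply_of_ne (hbj := Ne.symm hk)]
  rw [Finset.sum_congr rfl fun t _ => h1 t, Matrix.scalar_apply, Matrix.diagonal_apply]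
  by_cases hrs : r = s
  · rw [if_pos hrs, Finset.sum_congr rfl fun t _ => if_pos hrs, hab]
  · rw [if_neg hrs, Finset.sum_congr rfl fun t _ => if_neg hrs, Finset.sum_const_zero]

theorem simpleAt_of_scalar {d : B} (h : SimpleAt (Matrix.scalar n d)) : SimpleAt d := by
  intro x hx
  obtain ⟨i₀⟩ := ‹Nonempty n›
  obtain ⟨ι, i1, a, b, hab⟩ := h (Matrix.scalar n x) (fun h0 => hx (scalar_inj (n := n)
    (by rw [map_mul, h0, map_zero])))
  refine ⟨ι × n, inferInstance, fun t => a t.1 i₀ t.2, fun t => b t.1 t.2 i₀, ?_⟩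
  have h1 := congrFun (congrFun hab i₀) i₀
  have h2 : Matrix.scalar n d i₀ i₀ = d := by
    rw [Matrix.scalar_apply, Matrix.diagonal_apply_eq]
  rw [h2, Matrix.sum_apply] at h1
  conv_rhs => rw [← h1]
  rw [Fintype.sum_prod_type]
  refine Finset.sum_congr rfl fun t _ => ?_
  rw [Matrix.mul_apply]
  refine Finset.sum_congr rfl fun j _ => ?_
  change a t i₀ j * (d * x) * b t j i₀ = _
  rw [← map_mul (Matrix.scalar n), Matrix.scalar_apply, Matrix.mul_diagonal]

theorem zz_mat (e : B) : zz (Matrix.scalar n e) = zz e := by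
  unfold zz
  symm
  refine Nat.card_congr (Equiv.ofBijective
    (fun d : {d : B // IsBlock d ∧ SimpleAt d ∧ e * d = d} =>
      (⟨Matrix.scalar n d.1, ?_, simpleAt_scalar d.2.2.1, by rw [← map_mul, d.2.2.2]⟩ :
        {d : Matrix n n B // IsBlock d ∧ SimpleAt d ∧ Matrix.scalar n e * d = d})) ⟨?_, ?_⟩)
  · exact isBlock_scalar d.2.1
  · intro d d' h
    exact Subtype.ext (scalar_inj (congrArg Subtype.val h))
  · rintro ⟨M, h1, h2, h3⟩
    obtain ⟨f, rfl, hf⟩ := exists_scalar h1.2.2.1
    exact ⟨⟨f, isBlock_of_scalar h1, simpleAt_of_scalar h2,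
      scalar_inj (n := n) (by rw [map_mul, h3])⟩, rfl⟩

/-- with any decidability instance -/
theorem zz_mat_one {n : Type} [Fintype n] [inst : DecidableEq n] [Nonempty n] :
    zz (1 : Matrix n n B) = zz (1 : B) := by
  have h : inst = fun a b => Classical.propDecidable (a = b) := Subsingleton.elim _ _
  subst h
  have h1 := zz_mat (n := n) (1 : B)
  rwa [map_one] at h1

end matrix

end Pool.Agent.Helper18.AW
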